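import Mathlib

set_option autoImplicit false
open ComplexOrder

namespace Pool.Agent.H79.Haagerup

/-- Letters of the free group of rank two. -/
abbrev Lt := Fin 2 × Bool

/-- The critical parameter for rank two. -/
noncomputable def r : ℝ := 1 / Real.sqrt 3

lemma r_sq : r ^ 2 = 1 / 3 := by
  unfold r
  rw [div_pow, Real.sq_sqrt (by norm_num)]
  norm_num

/-- The part of the kernel coming from the edges of the tree. -/
noncomputable def U : List Lt → List Lt → ℝ
  | [], _ => 0
  | _ :: _, [] => 0
  | a :: x, b :: y => if a = b then (2 / 3) * r ^ (x.length + y.length) + U x y else 0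

lemma kernel_eq (x : List Lt) : ∀ (y : List Lt), FreeGroup.IsReduced x → FreeGroup.IsReduced y →
    r ^ (FreeGroup.reduce (FreeGroup.invRev x ++ y)).length = r ^ (x.length + y.length) + U x y := by
  induction x with
  | nil =>
    intro y _ hy
    simp [U, hy.reduce_eq]
  | cons a x ih =>
    intro y hx hy
    cases y with
    | nil =>
      simp [U, FreeGroup.reduce_invRev, hx.reduce_eq]
    | cons b y =>
      have hx' : FreeGroup.IsReduced x := List.IsChain.tail hx
      have hy' : FreeGroup.IsReduced y := List.IsChain.tail hy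
      by_cases hab : a = b
      · subst hab
        have h1 : FreeGroup.reduce (FreeGroup.invRev (a :: x) ++ a :: y)
            = FreeGroup.reduce (FreeGroup.invRev x ++ y) := by
          apply FreeGroup.reduce.Step.eq
          have := @FreeGroup.Red.Step.not_rev _ (FreeGroup.invRev x) y a.1 a.2
          have h2 : FreeGroup.invRev (a :: x) ++ a :: y
              = FreeGroup.invRev x ++ (a.1, !a.2) :: (a.1, a.2) :: y := by
            rw [FreeGroup.invRev_cons]
            simp [FreeGroup.invRev]
          rw [h2]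
          exact this
        rw [h1, ih y hx' hy']
        simp only [U, List.length_cons, if_true]
        have h3 : r ^ (x.length + 1 + (y.length + 1)) = (1 / 3) * r ^ (x.length + y.length) := by
          rw [show x.length + 1 + (y.length + 1) = (x.length + y.length) + 2 by ring, pow_add, r_sq]
          ring
        rw [h3]
        ring
      · have h1 : FreeGroup.IsReduced (FreeGroup.invRev (a :: x) ++ b :: y) := by
          unfold FreeGroup.IsReduced
          rw [List.isChain_append]
          refine ⟨?_, hy, ?_⟩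
          · have h4 : FreeGroup.reduce (FreeGroup.invRev (a :: x)) = FreeGroup.invRev (a :: x) := by
              rw [FreeGroup.reduce_invRev, hx.reduce_eq]
            exact FreeGroup.IsReduced.of_reduce_eq h4
          · intro u hu v hv
            rw [FreeGroup.invRev_cons] at hu
            simp [FreeGroup.invRev] at hu hv
            subst hv
            subst hu
            intro h5
            simp only at h5 ⊢
            by_contra h6
            apply hab
            ext1
            · exact h5
            · revert h6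
              cases a.2 <;> cases b.2 <;> simp
        rw [h1.reduce_eq]
        simp [U, hab]

variable {ι : Type*} [Fintype ι]

/-- The form of the edge part of the kernel. -/
noncomputable def Q (c : ι → ℂ) (x : ι → List Lt) : ℂ :=
  ∑ i, ∑ j, starRingEnd ℂ (c i) * c j * (U (x i) (x j) : ℂ)

/-- The form of the identity. -/
noncomputable def E (c : ι → ℂ) (x : ι → List Lt) : ℂ :=
  ∑ i, ∑ j, starRingEnd ℂ (c i) * c j * (if x i = x j then 1 else 0)

/-- The radial functional. -/
noncomputable def ell (c : ι → ℂ) (x : ι → List Lt) : ℂ :=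
  ∑ i, c i * (r : ℂ) ^ (x i).length

/-- Coefficients of the words that start with the letter `a`. -/
def ca (c : ι → ℂ) (x : ι → List Lt) (a : Lt) (i : ι) : ℂ :=
  if (x i).head? = some a then c i else 0

/-- Total coefficient of the empty word. -/
noncomputable def gam (c : ι → ℂ) (x : ι → List Lt) : ℂ :=
  ∑ i, if x i = [] then c i else 0

lemma Q_rec (c : ι → ℂ) (x : ι → List Lt) :
    Q c x = ∑ a : Lt, ((2 / 3) * (starRingEnd ℂ (ell (ca c x a) (fun i => (x i).tail))
      * ell (ca c x a) (fun i => (x i).tail)) + Q (ca c x a) (fun i => (x i).tail)) := by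
  have key : ∀ i j : ι, starRingEnd ℂ (c i) * c j * (U (x i) (x j) : ℂ)
      = ∑ a : Lt, ((2 / 3) * (starRingEnd ℂ (ca c x a i * (r : ℂ) ^ (x i).tail.length)
        * (ca c x a j * (r : ℂ) ^ (x j).tail.length))
        + starRingEnd ℂ (ca c x a i) * ca c x a j * (U (x i).tail (x j).tail : ℂ)) := by
    intro i j
    unfold ca
    rcases hxi : x i with _ | ⟨a, xi⟩
    · simp [U]
    · rcases hxj : x j with _ | ⟨b, xj⟩
      · simp [U]
      · simp only [U, List.head?_cons, List.tail_cons, Option.some.injEq]
        rw [Finset.sum_eq_single a]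
        · by_cases hab : a = b
          · subst hab
            simp
            ring
          · have hba : b ≠ a := fun h => hab h.symm
            simp [hab, hba]
        · intro d _ hd
          have : a ≠ d := fun h => hd h.symm
          simp [this]
        · simp
  unfold Q
  simp_rw [key]
  have e1 : ∀ a : Lt, (2 / 3) * (starRingEnd ℂ (ell (ca c x a) (fun i => (x i).tail))
      * ell (ca c x a) (fun i => (x i).tail))
      = ∑ i, ∑ j, (2 / 3) * (starRingEnd ℂ (ca c x a i * (r : ℂ) ^ (x i).tail.length)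
        * (ca c x a j * (r : ℂ) ^ (x j).tail.length)) := by
    intro a
    unfold ell
    rw [map_sum, Finset.sum_mul_sum, Finset.mul_sum]
    apply Finset.sum_congr rfl
    intro i _
    rw [Finset.mul_sum]
  simp_rw [e1]
  simp_rw [← Finset.sum_add_distrib]
  rw [Finset.sum_comm]
  simp_rw [Finset.sum_comm (s := (Finset.univ : Finset ι)) (t := (Finset.univ : Finset Lt))]
  rw [Finset.sum_congr rfl]
  intro a _
  rw [Finset.sum_comm]


lemma E_rec (c : ι → ℂ) (x : ι → List Lt) :
    E c x = starRingEnd ℂ (gam c x) * gam c x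
      + ∑ a : Lt, E (ca c x a) (fun i => (x i).tail) := by
  have key : ∀ i j : ι, starRingEnd ℂ (c i) * c j * (if x i = x j then (1 : ℂ) else 0)
      = starRingEnd ℂ (if x i = [] then c i else 0) * (if x j = [] then c j else 0)
        + ∑ a : Lt, starRingEnd ℂ (ca c x a i) * ca c x a j
          * (if (x i).tail = (x j).tail then (1 : ℂ) else 0) := by
    intro i j
    unfold ca
    rcases hxi : x i with _ | ⟨a, xi⟩
    · rcases hxj : x j with _ | ⟨b, xj⟩
      · simp
      · simp
    · rcases hxj : x j with _ | ⟨b, xj⟩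
      · simp
      · simp only [List.head?_cons, List.tail_cons, Option.some.injEq, List.cons.injEq]
        rw [Finset.sum_eq_single a]
        · by_cases hab : a = b
          · subst hab
            by_cases hx2 : xi = xj <;> simp [hx2]
          · have hba : b ≠ a := fun h => hab h.symm
            simp [hab, hba]
        · intro d _ hd
          have : a ≠ d := fun h => hd h.symm
          simp [this]
        · simp
  unfold E
  simp_rw [key]
  have e1 : starRingEnd ℂ (gam c x) * gam c x
      = ∑ i, ∑ j, starRingEnd ℂ (if x i = [] then c i else 0) * (if x j = [] then c j else 0) := by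
    unfold gam
    rw [map_sum, Finset.sum_mul_sum]
  rw [e1]
  rw [Finset.sum_comm (s := (Finset.univ : Finset Lt)), ← Finset.sum_add_distrib]
  apply Finset.sum_congr rfl
  intro i _
  rw [Finset.sum_comm (s := (Finset.univ : Finset Lt)), ← Finset.sum_add_distrib]

lemma ell_rec (c : ι → ℂ) (x : ι → List Lt) :
    ell c x = gam c x + r * ∑ a : Lt, ell (ca c x a) (fun i => (x i).tail) := by
  have key : ∀ i : ι, c i * (r : ℂ) ^ (x i).length
      = (if x i = [] then c i else 0)
        + r * ∑ a : Lt, ca c x a i * (r : ℂ) ^ (x i).tail.length := by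
    intro i
    unfold ca
    rcases hxi : x i with _ | ⟨a, xi⟩
    · simp
    · simp only [List.head?_cons, List.tail_cons, Option.some.injEq]
      rw [Finset.sum_eq_single a]
      · simp
        ring
      · intro d _ hd
        have : a ≠ d := fun h => hd h.symm
        simp [this]
      · simp
  unfold ell gam
  simp_rw [key]
  rw [Finset.sum_add_distrib]
  congr 1
  rw [← Finset.mul_sum]
  congr 1
  rw [Finset.sum_comm]

lemma conj_mul_self_eq (z : ℂ) : starRingEnd ℂ z * z = ((‖z‖ ^ 2 : ℝ) : ℂ) := by
  rw [mul_comm, Complex.mul_conj, Complex.normSq_eq_norm_sq]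

/-- The elementary inequality behind the induction step. -/
lemma step_ineq (g : ℂ) (l : Lt → ℂ) :
    (0 : ℂ) ≤ (2 / 3 - 1 / 3) * (∑ a : Lt, starRingEnd ℂ (l a) * l a)
      - (1 / 9) * (starRingEnd ℂ g * g)
      + (1 / 3) * (starRingEnd ℂ (g + r * ∑ a : Lt, l a) * (g + r * ∑ a : Lt, l a)) := by
  simp_rw [conj_mul_self_eq]
  have h1 : ‖g‖ ^ 2 ≤ 2 * ‖g + r * ∑ a : Lt, l a‖ ^ 2 + 2 * (r ^ 2 * ‖∑ a : Lt, l a‖ ^ 2) := by
    have h2 : ‖g‖ ≤ ‖g + r * ∑ a : Lt, l a‖ + |r| * ‖∑ a : Lt, l a‖ := by
      calc ‖g‖ = ‖(g + r * ∑ a : Lt, l a) - r * ∑ a : Lt, l a‖ := by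
            congr 1
            ring
        _ ≤ ‖g + r * ∑ a : Lt, l a‖ + ‖(r : ℂ) * ∑ a : Lt, l a‖ := norm_sub_le _ _
        _ = _ := by
            rw [norm_mul, Complex.norm_real, Real.norm_eq_abs]
    have h3 : ‖g‖ ^ 2 ≤ (‖g + r * ∑ a : Lt, l a‖ + |r| * ‖∑ a : Lt, l a‖) ^ 2 := by
      gcongr
    have h4 : (|r| * ‖∑ a : Lt, l a‖) ^ 2 = r ^ 2 * ‖∑ a : Lt, l a‖ ^ 2 := by
      rw [mul_pow, sq_abs]
    nlinarith [sq_nonneg (‖g + r * ∑ a : Lt, l a‖ - |r| * ‖∑ a : Lt, l a‖)]
  have h5 : ‖∑ a : Lt, l a‖ ^ 2 ≤ 4 * ∑ a : Lt, ‖l a‖ ^ 2 := by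
    calc ‖∑ a : Lt, l a‖ ^ 2 ≤ (∑ a : Lt, ‖l a‖) ^ 2 := by
          gcongr
          exact norm_sum_le _ _
      _ ≤ (Finset.univ : Finset Lt).card * ∑ a : Lt, ‖l a‖ ^ 2 := sq_sum_le_card_mul_sum_sq
      _ = 4 * ∑ a : Lt, ‖l a‖ ^ 2 := by
          norm_num [Finset.card_univ]
  have h6 : (0 : ℝ) ≤ (2 / 3 - 1 / 3) * (∑ a : Lt, ‖l a‖ ^ 2) - (1 / 9) * ‖g‖ ^ 2
      + (1 / 3) * ‖g + r * ∑ a : Lt, l a‖ ^ 2 := by
    rw [r_sq] at h1
    have h7 : 0 ≤ ∑ a : Lt, ‖l a‖ ^ 2 := Finset.sum_nonneg (fun _ _ => sq_nonneg _)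
    have h8 : 0 ≤ ‖g + r * ∑ a : Lt, l a‖ ^ 2 := sq_nonneg _
    linarith
  have h9 := Complex.zero_le_real.mpr h6
  push_cast at h9 ⊢
  exact h9

/-- The positivity with a gap, by induction on the depth. -/
lemma main_ineq (N : ℕ) : ∀ (c : ι → ℂ) (x : ι → List Lt),
    (∀ i, c i ≠ 0 → (x i).length < N) →
    (0 : ℂ) ≤ Q c x - (1 / 9) * E c x + (1 / 3) * (starRingEnd ℂ (ell c x) * ell c x) := by
  induction N with
  | zero =>
    intro c x h
    have hc : ∀ i, c i = 0 := by
      intro i
      by_contra hi
      exact absurd (h i hi) (by simp)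
    simp [Q, E, ell, hc]
  | succ N ih =>
    intro c x h
    rw [Q_rec, E_rec, ell_rec]
    have h1 := fun a : Lt => ih (ca c x a) (fun i => (x i).tail) (by
      intro i hi
      unfold ca at hi
      rcases hxi : x i with _ | ⟨b, xi⟩
      · simp [hxi] at hi
      · have hci : c i ≠ 0 := by
          intro h0
          simp [h0] at hi
        have := h i hci
        rw [hxi] at this
        simp at this ⊢
        exact this)
    have h2 := step_ineq (gam c x) (fun a => ell (ca c x a) (fun i => (x i).tail))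
    have h3 : (0 : ℂ) ≤ ∑ a : Lt, (Q (ca c x a) (fun i => (x i).tail)
        - (1 / 9) * E (ca c x a) (fun i => (x i).tail)
        + (1 / 3) * (starRingEnd ℂ (ell (ca c x a) (fun i => (x i).tail))
          * ell (ca c x a) (fun i => (x i).tail))) := Finset.sum_nonneg (fun a _ => h1 a)
    have h4 := add_nonneg h2 h3
    refine le_of_le_of_eq h4 ?_
    simp only [Finset.sum_add_distrib, Finset.sum_sub_distrib, ← Finset.mul_sum]
    ring

lemma final_ineq (c : ι → ℂ) (x : ι → List Lt) :
    (0 : ℂ) ≤ starRingEnd ℂ (ell c x) * ell c x + Q c x - (1 / 9) * E c x := by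
  obtain ⟨N, hN⟩ : ∃ N : ℕ, ∀ i, (x i).length < N := by
    refine ⟨(Finset.univ.sup fun i => (x i).length) + 1, fun i => ?_⟩
    exact Nat.lt_succ_of_le (Finset.le_sup (f := fun i => (x i).length) (Finset.mem_univ i))
  have h1 := main_ineq N c x (fun i _ => hN i)
  have h2 : (0 : ℂ) ≤ (2 / 3) * (starRingEnd ℂ (ell c x) * ell c x) := by
    rw [conj_mul_self_eq]
    have : (0 : ℝ) ≤ (2 / 3) * ‖ell c x‖ ^ 2 := by positivity
    have h9 := Complex.zero_le_real.mpr this
    push_cast at h9 ⊢
    exact h9
  refine le_of_le_of_eq (add_nonneg h1 h2) ?_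
  ring

end Pool.Agent.H79.Haagerup
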