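import Mathlib

set_option autoImplicit false

open scoped InnerProductSpace

namespace Pool.Agent.H79

/-- A separable infinite-dimensional Hilbert space has a Hilbert basis indexed by `ℕ`. -/
theorem exists_hilbertBasis_nat (H : Type*) [NormedAddCommGroup H] [InnerProductSpace ℂ H]
    [CompleteSpace H] [TopologicalSpace.SeparableSpace H] (hH : ¬ FiniteDimensional ℂ H) :
    Nonempty (HilbertBasis ℕ ℂ H) := by
  obtain ⟨w, b, hb⟩ := exists_hilbertBasis ℂ H
  have ho := b.orthonormal
  have hcount : Countable w := by
    have h1 : (Set.univ : Set w).PairwiseDisjoint (fun i => Metric.ball (b i) (1 / 2)) := by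
      intro i _ j _ hij
      apply Metric.ball_disjoint_ball
      have h2 : ‖b i - b j‖ ^ 2 = 2 := by
        rw [@norm_sub_sq ℂ, ho.1 i, ho.1 j, ho.2 hij]
        simp
        norm_num
      rw [dist_eq_norm]
      nlinarith [norm_nonneg (b i - b j)]
    have h3 := h1.countable_of_isOpen (fun i _ => Metric.isOpen_ball)
      (fun i _ => ⟨b i, Metric.mem_ball_self (by norm_num)⟩)
    exact Set.countable_univ_iff.mp h3
  have hinf : Infinite w := by
    by_contra hfin
    rw [not_infinite_iff_finite] at hfin
    apply hH
    have h1 : FiniteDimensional ℂ (Submodule.span ℂ (Set.range b)) :=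
      FiniteDimensional.span_of_finite ℂ (Set.finite_range b)
    have h2 := b.dense_span
    rw [(Submodule.closed_of_finiteDimensional _).submodule_topologicalClosure_eq] at h2
    rw [h2] at h1
    exact Module.Finite.equiv (Submodule.topEquiv : (⊤ : Submodule ℂ H) ≃ₗ[ℂ] H)
  obtain ⟨e⟩ : Nonempty (ℕ ≃ w) := nonempty_equiv_of_countable
  refine ⟨HilbertBasis.mk (v := fun n => b (e n)) (ho.comp e e.injective) ?_⟩
  have h1 : Set.range (fun n => b (e n)) = Set.range b := by
    ext x
    constructor
    · rintro ⟨n, rfl⟩
      exact ⟨e n, rfl⟩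
    · rintro ⟨i, rfl⟩
      exact ⟨e.symm i, by simp⟩
  rw [h1, b.dense_span]

end Pool.Agent.H79
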