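import Mathlib

set_option autoImplicit false

open Filter Topology

noncomputable section

namespace Pool.Agent.H79.Schatten

variable {H : Type*} [NormedAddCommGroup H] [InnerProductSpace ℂ H]

/-- The set of bounded operators of rank at most `n`. -/
def rankLE (H : Type*) [NormedAddCommGroup H] [InnerProductSpace ℂ H] (n : ℕ) :
    Set (H →L[ℂ] H) :=
  {F | LinearMap.rank (F : H →ₗ[ℂ] H) ≤ (n : Cardinal)}

/-- The `n`-th singular value (`n = 0, 1, 2, ...`) of a bounded operator `T` on a Hilbert space: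
the distance (in operator norm) from `T` to the operators of rank at most `n`. For a compact
operator this is the `n`-th term of the decreasing sequence of eigenvalues of `|T|`. -/
def sv (T : H →L[ℂ] H) (n : ℕ) : ℝ := Metric.infDist T (rankLE H n)

lemma zero_mem_rankLE (n : ℕ) : (0 : H →L[ℂ] H) ∈ rankLE H n := by
  simp [rankLE, LinearMap.rank_zero]

lemma rankLE_nonempty (n : ℕ) : (rankLE H n).Nonempty := ⟨0, zero_mem_rankLE n⟩

lemma rankLE_mono {m n : ℕ} (h : m ≤ n) : rankLE H m ⊆ rankLE H n := by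
  intro F hF
  unfold rankLE at *
  simp only [Set.mem_ofPred_eq] at *
  exact hF.trans (by exact_mod_cast h)

lemma sv_nonneg (T : H →L[ℂ] H) (n : ℕ) : 0 ≤ sv T n := Metric.infDist_nonneg

lemma sv_le_of_mem {T F : H →L[ℂ] H} {n : ℕ} (hF : F ∈ rankLE H n) : sv T n ≤ ‖T - F‖ := by
  rw [← dist_eq_norm]
  exact Metric.infDist_le_dist_of_mem hF

lemma sv_le_norm (T : H →L[ℂ] H) (n : ℕ) : sv T n ≤ ‖T‖ := by
  simpa using sv_le_of_mem (T := T) (zero_mem_rankLE n)

lemma sv_antitone (T : H →L[ℂ] H) : Antitone (sv T) := by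
  intro m n h
  exact Metric.infDist_le_infDist_of_subset (rankLE_mono h) (rankLE_nonempty m)

lemma exists_of_sv_lt {T : H →L[ℂ] H} {n : ℕ} {c : ℝ} (h : sv T n < c) :
    ∃ F ∈ rankLE H n, ‖T - F‖ < c := by
  obtain ⟨F, hF, hd⟩ := (Metric.infDist_lt_iff (rankLE_nonempty n)).mp h
  exact ⟨F, hF, by rwa [← dist_eq_norm]⟩

lemma add_mem_rankLE {F G : H →L[ℂ] H} {m n : ℕ} (hF : F ∈ rankLE H m) (hG : G ∈ rankLE H n) :
    F + G ∈ rankLE H (m + n) := by
  unfold rankLE at *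
  simp only [Set.mem_ofPred_eq] at *
  calc LinearMap.rank ((F + G : H →L[ℂ] H) : H →ₗ[ℂ] H)
      = LinearMap.rank ((F : H →ₗ[ℂ] H) + (G : H →ₗ[ℂ] H)) := by rfl
    _ ≤ _ := LinearMap.rank_add_le _ _
    _ ≤ (m : Cardinal) + n := by gcongr
    _ = _ := by push_cast; rfl

lemma smul_mem_rankLE {F : H →L[ℂ] H} {n : ℕ} (c : ℂ) (hF : F ∈ rankLE H n) :
    c • F ∈ rankLE H n := by
  unfold rankLE at *
  simp only [Set.mem_ofPred_eq] at *
  refine le_trans ?_ hF
  have : ((c • F : H →L[ℂ] H) : H →ₗ[ℂ] H) = (c • LinearMap.id).comp (F : H →ₗ[ℂ] H) := by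
    ext x; simp
  rw [this]
  exact LinearMap.rank_comp_le_right _ _

lemma mul_mem_rankLE_right {F : H →L[ℂ] H} {n : ℕ} (A : H →L[ℂ] H) (hF : F ∈ rankLE H n) :
    A * F ∈ rankLE H n := by
  unfold rankLE at *
  simp only [Set.mem_ofPred_eq] at *
  exact le_trans (LinearMap.rank_comp_le_right (F : H →ₗ[ℂ] H) (A : H →ₗ[ℂ] H)) hF

lemma mul_mem_rankLE_left {F : H →L[ℂ] H} {n : ℕ} (A : H →L[ℂ] H) (hF : F ∈ rankLE H n) :
    F * A ∈ rankLE H n := by
  unfold rankLE at *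
  simp only [Set.mem_ofPred_eq] at *
  exact le_trans (LinearMap.rank_comp_le_left (A : H →ₗ[ℂ] H) (F : H →ₗ[ℂ] H)) hF

lemma sv_add_le (S T : H →L[ℂ] H) (m n : ℕ) : sv (S + T) (m + n) ≤ sv S m + sv T n := by
  apply le_of_forall_pos_lt_add
  intro ε hε
  obtain ⟨F, hF, hF'⟩ := exists_of_sv_lt (show sv S m < sv S m + ε / 2 by linarith)
  obtain ⟨G, hG, hG'⟩ := exists_of_sv_lt (show sv T n < sv T n + ε / 2 by linarith)
  calc sv (S + T) (m + n) ≤ ‖(S + T) - (F + G)‖ := sv_le_of_mem (add_mem_rankLE hF hG)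
    _ = ‖(S - F) + (T - G)‖ := by congr 1; abel
    _ ≤ ‖S - F‖ + ‖T - G‖ := norm_add_le _ _
    _ < sv S m + sv T n + ε := by linarith

lemma sv_mul_le_right (A T : H →L[ℂ] H) (n : ℕ) : sv (A * T) n ≤ ‖A‖ * sv T n := by
  apply le_of_forall_pos_le_add
  intro ε hε
  have hA : 0 ≤ ‖A‖ := norm_nonneg A
  obtain ⟨F, hF, hF'⟩ := exists_of_sv_lt (show sv T n < sv T n + ε / (‖A‖ + 1) by
    have : 0 < ε / (‖A‖ + 1) := by positivity
    linarith)
  calc sv (A * T) n ≤ ‖A * T - A * F‖ := sv_le_of_mem (mul_mem_rankLE_right A hF)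
    _ = ‖A * (T - F)‖ := by rw [mul_sub]
    _ ≤ ‖A‖ * ‖T - F‖ := norm_mul_le _ _
    _ ≤ ‖A‖ * (sv T n + ε / (‖A‖ + 1)) := by gcongr
    _ = ‖A‖ * sv T n + ε * (‖A‖ / (‖A‖ + 1)) := by ring
    _ ≤ ‖A‖ * sv T n + ε * 1 := by
        gcongr
        rw [div_le_one (by positivity)]
        linarith
    _ = _ := by ring

lemma sv_mul_le_left (T A : H →L[ℂ] H) (n : ℕ) : sv (T * A) n ≤ sv T n * ‖A‖ := by
  apply le_of_forall_pos_le_add
  intro ε hε
  have hA : 0 ≤ ‖A‖ := norm_nonneg A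
  obtain ⟨F, hF, hF'⟩ := exists_of_sv_lt (show sv T n < sv T n + ε / (‖A‖ + 1) by
    have : 0 < ε / (‖A‖ + 1) := by positivity
    linarith)
  calc sv (T * A) n ≤ ‖T * A - F * A‖ := sv_le_of_mem (mul_mem_rankLE_left A hF)
    _ = ‖(T - F) * A‖ := by rw [sub_mul]
    _ ≤ ‖T - F‖ * ‖A‖ := norm_mul_le _ _
    _ ≤ (sv T n + ε / (‖A‖ + 1)) * ‖A‖ := by gcongr
    _ = sv T n * ‖A‖ + ε * (‖A‖ / (‖A‖ + 1)) := by ring
    _ ≤ sv T n * ‖A‖ + ε * 1 := by
        gcongr
        rw [div_le_one (by positivity)]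
        linarith
    _ = _ := by ring

lemma sv_smul_le (c : ℂ) (T : H →L[ℂ] H) (n : ℕ) : sv (c • T) n ≤ ‖c‖ * sv T n := by
  apply le_of_forall_pos_le_add
  intro ε hε
  have hA : 0 ≤ ‖c‖ := norm_nonneg c
  obtain ⟨F, hF, hF'⟩ := exists_of_sv_lt (show sv T n < sv T n + ε / (‖c‖ + 1) by
    have : 0 < ε / (‖c‖ + 1) := by positivity
    linarith)
  calc sv (c • T) n ≤ ‖c • T - c • F‖ := sv_le_of_mem (smul_mem_rankLE c hF)
    _ = ‖c • (T - F)‖ := by rw [smul_sub]
    _ = ‖c‖ * ‖T - F‖ := norm_smul _ _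
    _ ≤ ‖c‖ * (sv T n + ε / (‖c‖ + 1)) := by gcongr
    _ = ‖c‖ * sv T n + ε * (‖c‖ / (‖c‖ + 1)) := by ring
    _ ≤ ‖c‖ * sv T n + ε * 1 := by
        gcongr
        rw [div_le_one (by positivity)]
        linarith
    _ = _ := by ring

lemma rank_zero_imp {F : H →L[ℂ] H} (hF : F ∈ rankLE H 0) : F = 0 := by
  unfold rankLE at hF
  simp only [Set.mem_ofPred_eq, Nat.cast_zero, nonpos_iff_eq_zero] at hF
  have h1 : LinearMap.range (F : H →ₗ[ℂ] H) = ⊥ := by
    rw [LinearMap.rank] at hF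
    exact Submodule.rank_eq_zero.mp hF
  have h2 := LinearMap.range_eq_bot.mp h1
  ext x
  exact congrArg (fun f : H →ₗ[ℂ] H => f x) h2

lemma sv_zero (T : H →L[ℂ] H) : sv T 0 = ‖T‖ := by
  apply le_antisymm (sv_le_norm T 0)
  apply le_of_forall_pos_le_add
  intro ε hε
  obtain ⟨F, hF, hF'⟩ := exists_of_sv_lt (show sv T 0 < sv T 0 + ε by linarith)
  rw [rank_zero_imp hF, sub_zero] at hF'
  exact hF'.le

/-- `T` belongs to the Schatten class `S_p`: it is compact and the `p`-th powers of its singular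
values are summable. -/
def IsSchatten (p : ℝ) (T : H →L[ℂ] H) : Prop :=
  IsCompactOperator T ∧ Summable (fun n => sv T n ^ p)

/-- The Schatten norm `‖T‖_p = (∑ s_n(T)^p)^(1/p)`. -/
def schattenNorm (p : ℝ) (T : H →L[ℂ] H) : ℝ := (∑' n, sv T n ^ p) ^ (1 / p)

lemma isSchatten_zero {p : ℝ} (hp : 0 < p) : IsSchatten p (0 : H →L[ℂ] H) := by
  refine ⟨isCompactOperator_zero, ?_⟩
  have : (fun n => sv (0 : H →L[ℂ] H) n ^ p) = fun _ => 0 := by
    funext n
    have h1 : sv (0 : H →L[ℂ] H) n = 0 := by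
      apply le_antisymm _ (sv_nonneg _ _)
      simpa using sv_le_norm (0 : H →L[ℂ] H) n
    rw [h1, Real.zero_rpow hp.ne']
  rw [this]
  exact summable_zero

lemma rpow_add_le {p x y : ℝ} (hp : 0 < p) (hx : 0 ≤ x) (hy : 0 ≤ y) :
    (x + y) ^ p ≤ 2 ^ p * (x ^ p + y ^ p) := by
  have h1 : (x + y) ≤ 2 * max x y := by
    rcases le_total x y with h | h
    · rw [max_eq_right h]; linarith
    · rw [max_eq_left h]; linarith
  calc (x + y) ^ p ≤ (2 * max x y) ^ p := by
        apply Real.rpow_le_rpow (by positivity) h1 hp.le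
    _ = 2 ^ p * (max x y) ^ p := by
        rw [Real.mul_rpow (by norm_num) (by positivity)]
    _ ≤ 2 ^ p * (x ^ p + y ^ p) := by
        gcongr
        rcases le_total x y with h | h
        · rw [max_eq_right h]
          have := Real.rpow_nonneg hx p
          linarith
        · rw [max_eq_left h]
          have := Real.rpow_nonneg hy p
          linarith

lemma summable_sv_add {p : ℝ} (hp : 0 < p) {S T : H →L[ℂ] H}
    (hS : Summable (fun n => sv S n ^ p)) (hT : Summable (fun n => sv T n ^ p)) :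
    Summable (fun n => sv (S + T) n ^ p) := by
  have hsum : Summable (fun n => 2 ^ p * (sv S n ^ p + sv T n ^ p)) :=
    (hS.add hT).mul_left _
  have hev : Summable (fun n => sv (S + T) (2 * n) ^ p) := by
    refine Summable.of_nonneg_of_le (fun n => Real.rpow_nonneg (sv_nonneg _ _) _) (fun n => ?_) hsum
    have h1 : sv (S + T) (2 * n) ≤ sv S n + sv T n := by
      rw [two_mul]
      exact sv_add_le S T n n
    exact (Real.rpow_le_rpow (sv_nonneg _ _) h1 hp.le).trans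
      (rpow_add_le hp (sv_nonneg _ _) (sv_nonneg _ _))
  have hod : Summable (fun n => sv (S + T) (2 * n + 1) ^ p) := by
    refine Summable.of_nonneg_of_le (fun n => Real.rpow_nonneg (sv_nonneg _ _) _) (fun n => ?_) hsum
    have h1 : sv (S + T) (2 * n + 1) ≤ sv S n + sv T n := by
      refine (sv_antitone (S + T) (Nat.le_succ (2 * n))).trans ?_
      rw [two_mul]
      exact sv_add_le S T n n
    exact (Real.rpow_le_rpow (sv_nonneg _ _) h1 hp.le).trans
      (rpow_add_le hp (sv_nonneg _ _) (sv_nonneg _ _))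
  exact (hev.hasSum.even_add_odd hod.hasSum).summable

lemma isSchatten_add {p : ℝ} (hp : 0 < p) {S T : H →L[ℂ] H} (hS : IsSchatten p S)
    (hT : IsSchatten p T) : IsSchatten p (S + T) :=
  ⟨by
    have := hS.1.add hT.1
    exact this, summable_sv_add hp hS.2 hT.2⟩

lemma isSchatten_smul {p : ℝ} (hp : 0 < p) (c : ℂ) {T : H →L[ℂ] H} (hT : IsSchatten p T) :
    IsSchatten p (c • T) := by
  refine ⟨hT.1.smul c, ?_⟩
  refine Summable.of_nonneg_of_le (fun n => Real.rpow_nonneg (sv_nonneg _ _) _) (fun n => ?_)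
    (hT.2.mul_left (‖c‖ ^ p))
  rw [← Real.mul_rpow (norm_nonneg _) (sv_nonneg _ _)]
  exact Real.rpow_le_rpow (sv_nonneg _ _) (sv_smul_le c T n) hp.le

lemma isSchatten_mul_right {p : ℝ} (hp : 0 < p) (A : H →L[ℂ] H) {T : H →L[ℂ] H}
    (hT : IsSchatten p T) : IsSchatten p (A * T) := by
  refine ⟨hT.1.clm_comp A, ?_⟩
  refine Summable.of_nonneg_of_le (fun n => Real.rpow_nonneg (sv_nonneg _ _) _) (fun n => ?_)
    (hT.2.mul_left (‖A‖ ^ p))
  rw [← Real.mul_rpow (norm_nonneg _) (sv_nonneg _ _)]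
  exact Real.rpow_le_rpow (sv_nonneg _ _) (sv_mul_le_right A T n) hp.le

/-- The Schatten class `S_p`, as a (non-unital) subalgebra of the bounded operators. -/
def schatten (H : Type*) [NormedAddCommGroup H] [InnerProductSpace ℂ H] (p : ℝ) (hp : 1 ≤ p) :
    NonUnitalSubalgebra ℂ (H →L[ℂ] H) where
  carrier := {T | IsSchatten p T}
  add_mem' := fun hS hT => isSchatten_add (by linarith) hS hT
  zero_mem' := isSchatten_zero (by linarith)
  mul_mem' := fun {A} {T} _ hT => isSchatten_mul_right (by linarith) A hT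
  smul_mem' := fun c _ hT => isSchatten_smul (by linarith) c hT

end Pool.Agent.H79.Schatten
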