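import Mathlib
import Pool.Agent.H79.SchattenSv

set_option autoImplicit false

open Filter Topology
open scoped InnerProductSpace

noncomputable section

namespace Pool.Agent.H79.Schatten

variable {H : Type*} [NormedAddCommGroup H] [InnerProductSpace ℂ H] [CompleteSpace H]

/-- An operator of rank at most `n` is a sum of at most `n` rank one operators. -/
lemma rep_of_rankLE {G : H →L[ℂ] H} {n : ℕ} (hG : G ∈ rankLE H n) :
    ∃ m ≤ n, ∃ u w : Fin m → H, Orthonormal ℂ u ∧ (∀ i, ‖w i‖ ≤ ‖G‖) ∧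
      ∀ x, G x = ∑ i, ⟪w i, x⟫_ℂ • u i := by
  unfold rankLE at hG
  simp only [Set.mem_ofPred_eq] at hG
  have hfin : FiniteDimensional ℂ (LinearMap.range (G : H →ₗ[ℂ] H)) := by
    rw [FiniteDimensional, ← Module.rank_lt_aleph0_iff]
    exact lt_of_le_of_lt hG (Cardinal.natCast_lt_aleph0)
  have hm : Module.finrank ℂ (LinearMap.range (G : H →ₗ[ℂ] H)) ≤ n :=
    Module.finrank_le_of_rank_le hG
  let b := stdOrthonormalBasis ℂ (LinearMap.range (G : H →ₗ[ℂ] H))
  refine ⟨_, hm, fun i => (b i : H), fun i => ContinuousLinearMap.adjoint G (b i : H), ?_, ?_, ?_⟩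
  · exact b.orthonormal.comp_linearIsometry (Submodule.subtypeₗᵢ _)
  · intro i
    calc ‖ContinuousLinearMap.adjoint G (b i : H)‖
        ≤ ‖ContinuousLinearMap.adjoint G‖ * ‖(b i : H)‖ := ContinuousLinearMap.le_opNorm _ _
      _ = ‖G‖ * 1 := by
          rw [LinearIsometryEquiv.norm_map]
          congr 1
          exact b.orthonormal.1 i
      _ = ‖G‖ := mul_one _
  · intro x
    have h1 := b.sum_repr' ⟨G x, ⟨x, rfl⟩⟩
    have h2 := congrArg (fun y : LinearMap.range (G : H →ₗ[ℂ] H) => (y : H)) h1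
    simp only [Submodule.coe_sum, Submodule.coe_smul, Submodule.coe_inner] at h2
    rw [← h2]
    apply Finset.sum_congr rfl
    intro i _
    rw [ContinuousLinearMap.adjoint_inner_left]

/-- Hilbert-Schmidt bound for an operator of rank at most `n`. -/
lemma sum_norm_sq_le_of_rankLE {ι : Type*} {e : ι → H} (he : Orthonormal ℂ e)
    {G : H →L[ℂ] H} {n : ℕ} (hG : G ∈ rankLE H n) (s : Finset ι) :
    ∑ i ∈ s, ‖G (e i)‖ ^ 2 ≤ n * ‖G‖ ^ 2 := by
  obtain ⟨m, hm, u, w, hu, hw, hrep⟩ := rep_of_rankLE hG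
  have h1 : ∀ i, ‖G (e i)‖ ^ 2 = ∑ j, ‖⟪e i, w j⟫_ℂ‖ ^ 2 := by
    intro i
    have h2 := hu.sum_inner_products_le (𝕜 := ℂ)  (G (e i)) (s := Finset.univ)
    have h3 : G (e i) = ∑ j, ⟪w j, e i⟫_ℂ • u j := hrep (e i)
    have h4 : ‖G (e i)‖ ^ 2 = ∑ j, ‖⟪w j, e i⟫_ℂ‖ ^ 2 := by
      rw [h3]
      have h5 := hu.inner_sum (fun j => ⟪w j, e i⟫_ℂ) (fun j => ⟪w j, e i⟫_ℂ) Finset.univ
      rw [inner_self_eq_norm_sq_to_K] at h5
      have h6 : ((‖∑ j, ⟪w j, e i⟫_ℂ • u j‖ ^ 2 : ℝ) : ℂ)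
          = ((∑ j, ‖⟪w j, e i⟫_ℂ‖ ^ 2 : ℝ) : ℂ) := by
        push_cast
        rw [show ((‖∑ j, ⟪w j, e i⟫_ℂ • u j‖ : ℝ) : ℂ) ^ 2
          = (((‖∑ j, ⟪w j, e i⟫_ℂ • u j‖ : ℝ) : ℂ)) ^ 2 from rfl]
        refine h5.trans ?_
        apply Finset.sum_congr rfl
        intro j _
        rw [RCLike.conj_mul]
        rfl
      exact_mod_cast h6
    rw [h4]
    apply Finset.sum_congr rfl
    intro j _
    rw [norm_inner_symm]
  calc ∑ i ∈ s, ‖G (e i)‖ ^ 2 = ∑ i ∈ s, ∑ j, ‖⟪e i, w j⟫_ℂ‖ ^ 2 := by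
        exact Finset.sum_congr rfl (fun i _ => h1 i)
    _ = ∑ j, ∑ i ∈ s, ‖⟪e i, w j⟫_ℂ‖ ^ 2 := Finset.sum_comm
    _ ≤ ∑ j : Fin m, ‖w j‖ ^ 2 := by
        apply Finset.sum_le_sum
        intro j _
        exact he.sum_inner_products_le (w j)
    _ ≤ ∑ _j : Fin m, ‖G‖ ^ 2 := by
        apply Finset.sum_le_sum
        intro j _
        have := hw j
        gcongr
    _ = m * ‖G‖ ^ 2 := by simp
    _ ≤ n * ‖G‖ ^ 2 := by
        gcongr

/-- The rank of the adjoint. -/
lemma adjoint_mem_rankLE {G : H →L[ℂ] H} {n : ℕ} (hG : G ∈ rankLE H n) :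
    ContinuousLinearMap.adjoint G ∈ rankLE H n := by
  obtain ⟨m, hm, u, w, hu, hw, hrep⟩ := rep_of_rankLE hG
  have h1 : ContinuousLinearMap.adjoint G
      = ∑ j, (innerSL ℂ (u j)).smulRight (w j) := by
    ext x
    apply ext_inner_left ℂ
    intro y
    rw [ContinuousLinearMap.adjoint_inner_right, hrep y]
    simp only [ContinuousLinearMap.sum_apply, ContinuousLinearMap.smulRight_apply,
      innerSL_apply_apply, sum_inner, inner_sum, inner_smul_left, inner_smul_right, inner_conj_symm]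
    apply Finset.sum_congr rfl
    intro j _
    ring
  rw [h1]
  have h2 : ∀ j : Fin m, (innerSL ℂ (u j)).smulRight (w j) ∈ rankLE H 1 := by
    intro j
    unfold rankLE
    simp only [Set.mem_ofPred_eq, Nat.cast_one]
    have h3 : LinearMap.range (((innerSL ℂ (u j)).smulRight (w j) : H →L[ℂ] H) : H →ₗ[ℂ] H)
        ≤ Submodule.span ℂ {w j} := by
      rintro _ ⟨x, rfl⟩
      exact Submodule.mem_span_singleton.mpr ⟨_, rfl⟩
    refine (Submodule.rank_mono h3).trans ?_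
    exact (rank_span_le _).trans (by simp)
  have h4 : ∀ s : Finset (Fin m), ∑ j ∈ s, (innerSL ℂ (u j)).smulRight (w j) ∈ rankLE H s.card := by
    intro s
    classical
    induction s using Finset.induction_on with
    | empty => simpa using zero_mem_rankLE 0
    | insert a s ha ih =>
      rw [Finset.sum_insert ha, Finset.card_insert_of_notMem ha, add_comm s.card]
      exact add_mem_rankLE (h2 a) ih
  have h5 := h4 Finset.univ
  simp only [Finset.card_univ, Fintype.card_fin] at h5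
  exact rankLE_mono hm h5

lemma sv_adjoint_le (T : H →L[ℂ] H) (n : ℕ) : sv (ContinuousLinearMap.adjoint T) n ≤ sv T n := by
  apply le_of_forall_pos_le_add
  intro ε hε
  obtain ⟨F, hF, hF'⟩ := exists_of_sv_lt (show sv T n < sv T n + ε by linarith)
  calc sv (ContinuousLinearMap.adjoint T) n
      ≤ ‖ContinuousLinearMap.adjoint T - ContinuousLinearMap.adjoint F‖ :=
        sv_le_of_mem (adjoint_mem_rankLE hF)
    _ = ‖ContinuousLinearMap.adjoint (T - F)‖ := by rw [map_sub]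
    _ = ‖T - F‖ := LinearIsometryEquiv.norm_map _ _
    _ ≤ _ := hF'.le

lemma sv_adjoint (T : H →L[ℂ] H) (n : ℕ) : sv (ContinuousLinearMap.adjoint T) n = sv T n := by
  apply le_antisymm (sv_adjoint_le T n)
  have := sv_adjoint_le (ContinuousLinearMap.adjoint T) n
  rwa [ContinuousLinearMap.adjoint_adjoint] at this

end Pool.Agent.H79.Schatten
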