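import Mathlib
import Pool.Agent.H79.SchattenRank

set_option autoImplicit false

open Filter Topology
open scoped InnerProductSpace

noncomputable section

namespace Pool.Agent.H79.Schatten

variable {H : Type*} [NormedAddCommGroup H] [InnerProductSpace ℂ H]

lemma sv_pow_mul_le {p : ℝ} (hp : 0 < p) {T : H →L[ℂ] H} (hT : Summable (fun n => sv T n ^ p))
    (n : ℕ) : ((n : ℝ) + 1) * sv T n ^ p ≤ ∑' k, sv T k ^ p := by
  calc ((n : ℝ) + 1) * sv T n ^ p = ∑ _k ∈ Finset.range (n + 1), sv T n ^ p := by simp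
    _ ≤ ∑ k ∈ Finset.range (n + 1), sv T k ^ p := by
        apply Finset.sum_le_sum
        intro k hk
        have : k ≤ n := Nat.lt_succ_iff.mp (Finset.mem_range.mp hk)
        exact Real.rpow_le_rpow (sv_nonneg _ _) (sv_antitone T this) hp.le
    _ ≤ ∑' k, sv T k ^ p := by
        apply hT.sum_le_tsum
        intro k _
        exact Real.rpow_nonneg (sv_nonneg _ _) _

lemma schattenNorm_nonneg (p : ℝ) (T : H →L[ℂ] H) : 0 ≤ schattenNorm p T :=
  Real.rpow_nonneg (tsum_nonneg (fun _ => Real.rpow_nonneg (sv_nonneg _ _) _)) _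

lemma sv_le_schattenNorm {p : ℝ} (hp : 0 < p) {T : H →L[ℂ] H}
    (hT : Summable (fun n => sv T n ^ p)) (n : ℕ) :
    sv T n ≤ ((n : ℝ) + 1) ^ (-(1 / p)) * schattenNorm p T := by
  have h1 := sv_pow_mul_le hp hT n
  have hn : (0 : ℝ) < (n : ℝ) + 1 := by positivity
  have h2 : sv T n = (sv T n ^ p) ^ (1 / p) := by
    rw [← Real.rpow_mul (sv_nonneg _ _), mul_one_div_cancel hp.ne', Real.rpow_one]
  have h3 : sv T n ^ p ≤ ((n : ℝ) + 1)⁻¹ * ∑' k, sv T k ^ p := by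
    rw [← div_eq_inv_mul, le_div_iff₀ hn, mul_comm]
    exact h1
  rw [h2]
  calc (sv T n ^ p) ^ (1 / p) ≤ (((n : ℝ) + 1)⁻¹ * ∑' k, sv T k ^ p) ^ (1 / p) := by
        apply Real.rpow_le_rpow (Real.rpow_nonneg (sv_nonneg _ _) _) h3 (by positivity)
    _ = _ := by
        rw [Real.mul_rpow (by positivity)
          (tsum_nonneg (fun _ => Real.rpow_nonneg (sv_nonneg _ _) _)), Real.rpow_neg hn.le,
          Real.inv_rpow hn.le]
        rfl

lemma norm_le_schattenNorm {p : ℝ} (hp : 0 < p) {T : H →L[ℂ] H}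
    (hT : Summable (fun n => sv T n ^ p)) : ‖T‖ ≤ schattenNorm p T := by
  have := sv_le_schattenNorm hp hT 0
  rw [sv_zero] at this
  simpa using this

/-- The level of the vertex `n` in the binary tree with root `0` and edges
`n - (2 n + 1)`, `n - (2 n + 2)`. -/
def lev (n : ℕ) : ℕ := Nat.log 2 (n + 1)

lemma lev_zero : lev 0 = 0 := by simp [lev]

lemma lev_odd (n : ℕ) : lev (2 * n + 1) = lev n + 1 := by
  unfold lev
  rw [show 2 * n + 1 + 1 = (n + 1) * 2 by ring, Nat.log_mul_base (by norm_num) (by omega)]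

lemma lev_even (n : ℕ) : lev (2 * n + 2) = lev n + 1 := by
  unfold lev
  rw [Nat.log_of_one_lt_of_le (by norm_num) (by omega)]
  congr 2
  omega

lemma lev_eq {n K : ℕ} (h1 : 2 ^ K - 1 ≤ n) (h2 : n < 2 ^ (K + 1) - 1) : lev n = K := by
  unfold lev
  apply Nat.log_eq_of_pow_le_of_lt_pow <;> omega

lemma le_lev {n K : ℕ} (h1 : 2 ^ K - 1 ≤ n) : K ≤ lev n := by
  unfold lev
  apply Nat.le_log_of_pow_le (by norm_num)
  omega

lemma sum_lev (t : ℝ) (K : ℕ) :
    ∑ n ∈ Finset.range (2 ^ K - 1), t ^ (lev n) = ∑ k ∈ Finset.range K, (2 * t) ^ k := by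
  induction K with
  | zero => simp
  | succ K ih =>
    rw [Finset.sum_range_succ, ← ih]
    have h1 : 2 ^ K - 1 ≤ 2 ^ (K + 1) - 1 := by
      have : 2 ^ K ≤ 2 ^ (K + 1) := Nat.pow_le_pow_right (by norm_num) (by omega)
      omega
    rw [← Finset.sum_range_add_sum_Ico _ h1]
    congr 1
    have h2 : ∀ n ∈ Finset.Ico (2 ^ K - 1) (2 ^ (K + 1) - 1), t ^ (lev n) = t ^ K := by
      intro n hn
      rw [Finset.mem_Ico] at hn
      rw [lev_eq hn.1 hn.2]
    rw [Finset.sum_congr rfl h2, Finset.sum_const, Nat.card_Ico]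
    have h3 : 2 ^ (K + 1) - 1 - (2 ^ K - 1) = 2 ^ K := by
      have : 0 < 2 ^ K := by positivity
      rw [pow_succ]
      omega
    rw [h3, mul_pow]
    simp

/-- The weighted Hilbert-Schmidt bound for an operator of rank at most `2 ^ K`. -/
lemma weighted_bound [CompleteSpace H] {e : ℕ → H} (he : Orthonormal ℂ e) {t : ℝ} (ht0 : 0 ≤ t)
    (ht1 : t ≤ 1) (htk : 1 < 2 * t) {G : H →L[ℂ] H} {K : ℕ} (hG : G ∈ rankLE H (2 ^ K))
    (s : Finset ℕ) :
    ∑ n ∈ s, t ^ (lev n) * ‖G (e n)‖ ^ 2 ≤ (1 / (2 * t - 1) + 1) * (2 * t) ^ K * ‖G‖ ^ 2 := by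
  have h0 : ∀ n, ‖G (e n)‖ ≤ ‖G‖ := by
    intro n
    have := G.le_opNorm (e n)
    rwa [he.1 n, mul_one] at this
  rw [← Finset.sum_filter_add_sum_filter_not s (fun n => n < 2 ^ K - 1)]
  have hA : ∑ n ∈ s with n < 2 ^ K - 1, t ^ (lev n) * ‖G (e n)‖ ^ 2
      ≤ 1 / (2 * t - 1) * (2 * t) ^ K * ‖G‖ ^ 2 := by
    calc ∑ n ∈ s with n < 2 ^ K - 1, t ^ (lev n) * ‖G (e n)‖ ^ 2
        ≤ ∑ n ∈ s with n < 2 ^ K - 1, t ^ (lev n) * ‖G‖ ^ 2 := by
          apply Finset.sum_le_sum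
          intro n _
          have := h0 n
          gcongr
      _ ≤ ∑ n ∈ Finset.range (2 ^ K - 1), t ^ (lev n) * ‖G‖ ^ 2 := by
          apply Finset.sum_le_sum_of_subset_of_nonneg
          · intro n hn
            rw [Finset.mem_filter] at hn
            exact Finset.mem_range.mpr hn.2
          · intro n _ _
            positivity
      _ = (∑ k ∈ Finset.range K, (2 * t) ^ k) * ‖G‖ ^ 2 := by
          rw [← Finset.sum_mul, sum_lev]
      _ ≤ 1 / (2 * t - 1) * (2 * t) ^ K * ‖G‖ ^ 2 := by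
          gcongr
          rw [geom_sum_eq (by linarith), div_mul_eq_mul_div, one_mul]
          have : 0 < 2 * t - 1 := by linarith
          gcongr
          linarith
  have hB : ∑ n ∈ s with ¬ n < 2 ^ K - 1, t ^ (lev n) * ‖G (e n)‖ ^ 2
      ≤ (2 * t) ^ K * ‖G‖ ^ 2 := by
    calc ∑ n ∈ s with ¬ n < 2 ^ K - 1, t ^ (lev n) * ‖G (e n)‖ ^ 2
        ≤ ∑ n ∈ s with ¬ n < 2 ^ K - 1, t ^ K * ‖G (e n)‖ ^ 2 := by
          apply Finset.sum_le_sum
          intro n hn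
          rw [Finset.mem_filter, not_lt] at hn
          have := pow_le_pow_of_le_one ht0 ht1 (le_lev hn.2)
          gcongr
      _ = t ^ K * ∑ n ∈ s with ¬ n < 2 ^ K - 1, ‖G (e n)‖ ^ 2 := by
          rw [Finset.mul_sum]
      _ ≤ t ^ K * ((2 ^ K : ℕ) * ‖G‖ ^ 2) := by
          gcongr
          exact sum_norm_sq_le_of_rankLE he hG _
      _ = (2 * t) ^ K * ‖G‖ ^ 2 := by
          push_cast
          rw [mul_pow]
          ring
  calc _ ≤ 1 / (2 * t - 1) * (2 * t) ^ K * ‖G‖ ^ 2 + (2 * t) ^ K * ‖G‖ ^ 2 := add_le_add hA hB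
    _ = _ := by ring

end Pool.Agent.H79.Schatten
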