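import Mathlib
import Pool.Agent.H79.SchattenCol

set_option autoImplicit false

open Filter Topology
open scoped InnerProductSpace

noncomputable section

namespace Pool.Agent.H79.Schatten

variable {H : Type*} [NormedAddCommGroup H] [InnerProductSpace ℂ H]

/-- The `ℓ²(H)` vector with coordinates `τ ^ (lev n) • T (e n)` for `n ∈ s` and zero otherwise. -/
def colPart (e : ℕ → H) (τ : ℝ) (s : Finset ℕ) : (H →L[ℂ] H) →ₗ[ℂ] lp (fun _ : ℕ => H) 2 where
  toFun T := ∑ n ∈ s, lp.single 2 n (((τ ^ lev n : ℝ) : ℂ) • T (e n))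
  map_add' S T := by
    rw [← Finset.sum_add_distrib]
    apply Finset.sum_congr rfl
    intro n _
    rw [add_apply, smul_add, lp.single_add]
  map_smul' c T := by
    rw [RingHom.id_apply, Finset.smul_sum]
    apply Finset.sum_congr rfl
    intro n _
    rw [smul_apply, smul_comm, lp.single_smul]

lemma norm_sq_colPart (e : ℕ → H) (τ : ℝ) (s : Finset ℕ) (T : H →L[ℂ] H) :
    ‖colPart e τ s T‖ ^ 2 = ∑ n ∈ s, (τ ^ 2) ^ (lev n) * ‖T (e n)‖ ^ 2 := by
  have h := lp.norm_sum_single (p := 2) (by norm_num)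
    (fun n => ((τ ^ lev n : ℝ) : ℂ) • T (e n)) s
  have h2 : (2 : ENNReal).toReal = 2 := by norm_num
  rw [h2] at h
  simp only [Real.rpow_two] at h
  change ‖∑ n ∈ s, lp.single 2 n (((τ ^ lev n : ℝ) : ℂ) • T (e n))‖ ^ 2 = _
  rw [h]
  apply Finset.sum_congr rfl
  intro n _
  rw [norm_smul, Complex.norm_real, mul_pow, Real.norm_eq_abs, sq_abs]
  ring

lemma norm_colPart_le_of_rankLE [CompleteSpace H] {e : ℕ → H} (he : Orthonormal ℂ e) {τ : ℝ}
    (hτ1 : τ ^ 2 ≤ 1) (hτ2 : 1 < 2 * τ ^ 2) {G : H →L[ℂ] H} {K : ℕ}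
    (hG : G ∈ rankLE H (2 ^ K)) (s : Finset ℕ) :
    ‖colPart e τ s G‖ ≤ √(1 / (2 * τ ^ 2 - 1) + 1) * √(2 * τ ^ 2) ^ K * ‖G‖ := by
  have hB : 0 ≤ 1 / (2 * τ ^ 2 - 1) + 1 := by
    have : 0 < 2 * τ ^ 2 - 1 := by linarith
    positivity
  apply (sq_le_sq₀ (norm_nonneg _) (by positivity)).mp
  rw [norm_sq_colPart, mul_pow, mul_pow, Real.sq_sqrt hB, ← pow_mul, mul_comm K 2, pow_mul,
    Real.sq_sqrt (by positivity)]
  exact weighted_bound he (sq_nonneg τ) hτ1 hτ2 hG s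

lemma norm_colPart_le_card {e : ℕ → H} (he : Orthonormal ℂ e) {τ : ℝ} (hτ1 : τ ^ 2 ≤ 1)
    (s : Finset ℕ) (T : H →L[ℂ] H) : ‖colPart e τ s T‖ ≤ √(s.card) * ‖T‖ := by
  apply (sq_le_sq₀ (norm_nonneg _) (by positivity)).mp
  rw [norm_sq_colPart, mul_pow, Real.sq_sqrt (by positivity)]
  calc ∑ n ∈ s, (τ ^ 2) ^ (lev n) * ‖T (e n)‖ ^ 2 ≤ ∑ _n ∈ s, 1 * ‖T‖ ^ 2 := by
        apply Finset.sum_le_sum
        intro n _
        have h1 : ‖T (e n)‖ ≤ ‖T‖ := by
          have := T.le_opNorm (e n)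
          rwa [he.1 n, mul_one] at this
        have h2 : (τ ^ 2) ^ (lev n) ≤ 1 := pow_le_one₀ (sq_nonneg τ) hτ1
        gcongr
    _ = s.card * ‖T‖ ^ 2 := by simp

/-- The main bound: an operator whose singular values satisfy `s_{2^K} ≤ θ^K N` has a weighted
column norm at most `C N`. -/
lemma colPart_bound [CompleteSpace H] {e : ℕ → H} (he : Orthonormal ℂ e) {τ θ : ℝ}
    (hτ1 : τ ^ 2 ≤ 1) (hτ2 : 1 < 2 * τ ^ 2) (hθ0 : 0 < θ) (hθ1 : θ ≤ 1)
    (hθ : √(2 * τ ^ 2) * θ < 1) :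
    ∃ C : ℝ, 0 ≤ C ∧ ∀ (T : H →L[ℂ] H) (N : ℝ), 0 < N → ‖T‖ ≤ N →
      (∀ K : ℕ, sv T (2 ^ K) ≤ θ ^ K * N) → ∀ s : Finset ℕ, ‖colPart e τ s T‖ ≤ C * N := by
  set B := √(1 / (2 * τ ^ 2 - 1) + 1) with hBdef
  set κ := √(2 * τ ^ 2) with hκdef
  have hκ0 : 0 ≤ κ := Real.sqrt_nonneg _
  have hB0 : 0 ≤ B := Real.sqrt_nonneg _
  have hκθ : 0 < 1 - κ * θ := by linarith
  refine ⟨3 * B + 4 * B * κ ^ 2 / (1 - κ * θ), by positivity, ?_⟩
  intro T N hN hTN hsv s
  have hex : ∀ K : ℕ, ∃ F ∈ rankLE H (2 ^ K), ‖T - F‖ < 2 * (θ ^ K * N) := by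
    intro K
    apply exists_of_sv_lt
    have h1 : 0 < θ ^ K * N := by positivity
    linarith [hsv K]
  choose F hF hFT using hex
  have hbd : ∀ K : ℕ, ‖colPart e τ s T‖ ≤ √(s.card) * (2 * (θ ^ K * N))
      + (3 * B + 4 * B * κ ^ 2 / (1 - κ * θ)) * N := by
    intro K
    have h1 : T = (T - F K) + (F 0 + ∑ j ∈ Finset.range K, (F (j + 1) - F j)) := by
      rw [Finset.sum_range_sub, add_sub_cancel, sub_add_cancel]
    have h2 : ‖colPart e τ s (T - F K)‖ ≤ √(s.card) * (2 * (θ ^ K * N)) := by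
      refine (norm_colPart_le_card he hτ1 s _).trans ?_
      exact mul_le_mul_of_nonneg_left (hFT K).le (Real.sqrt_nonneg _)
    have h3 : ‖colPart e τ s (F 0)‖ ≤ 3 * B * N := by
      have h4 := norm_colPart_le_of_rankLE he hτ1 hτ2 (hF 0) s
      have h5 : ‖F 0‖ ≤ 3 * N := by
        have h6 : ‖F 0‖ ≤ ‖T‖ + ‖T - F 0‖ := by
          calc ‖F 0‖ = ‖T - (T - F 0)‖ := by congr 1; abel
            _ ≤ _ := norm_sub_le _ _
        have h7 := hFT 0
        simp only [pow_zero, one_mul] at h7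
        linarith
      calc ‖colPart e τ s (F 0)‖ ≤ B * κ ^ 0 * ‖F 0‖ := h4
        _ ≤ B * κ ^ 0 * (3 * N) := by gcongr
        _ = 3 * B * N := by ring
    have h4 : ∀ j, ‖colPart e τ s (F (j + 1) - F j)‖ ≤ 4 * B * κ ^ 2 * N * (κ * θ) ^ j := by
      intro j
      have h5 : F (j + 1) - F j ∈ rankLE H (2 ^ (j + 2)) := by
        have h6 : F (j + 1) + (-1 : ℂ) • F j ∈ rankLE H (2 ^ (j + 1) + 2 ^ j) :=
          add_mem_rankLE (hF (j + 1)) (smul_mem_rankLE _ (hF j))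
        have h7 : F (j + 1) + (-1 : ℂ) • F j = F (j + 1) - F j := by
          rw [neg_one_smul]; abel
        rw [h7] at h6
        refine rankLE_mono ?_ h6
        have h8 : 2 ^ (j + 2) = 2 ^ (j + 1) + 2 ^ j + 2 ^ j := by ring
        have h9 : 0 < 2 ^ j := by positivity
        omega
      have h6 : ‖F (j + 1) - F j‖ ≤ 4 * (θ ^ j * N) := by
        calc ‖F (j + 1) - F j‖ = ‖(T - F j) - (T - F (j + 1))‖ := by congr 1; abel
          _ ≤ ‖T - F j‖ + ‖T - F (j + 1)‖ := norm_sub_le _ _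
          _ ≤ 2 * (θ ^ j * N) + 2 * (θ ^ (j + 1) * N) := add_le_add (hFT j).le (hFT (j + 1)).le
          _ ≤ 2 * (θ ^ j * N) + 2 * (θ ^ j * N) := by
              have : θ ^ (j + 1) ≤ θ ^ j := pow_le_pow_of_le_one hθ0.le hθ1 (Nat.le_succ j)
              gcongr
          _ = 4 * (θ ^ j * N) := by ring
      calc ‖colPart e τ s (F (j + 1) - F j)‖ ≤ B * κ ^ (j + 2) * ‖F (j + 1) - F j‖ :=
            norm_colPart_le_of_rankLE he hτ1 hτ2 h5 s
        _ ≤ B * κ ^ (j + 2) * (4 * (θ ^ j * N)) := by gcongr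
        _ = 4 * B * κ ^ 2 * N * (κ * θ) ^ j := by rw [mul_pow]; ring
    have h5 : ‖∑ j ∈ Finset.range K, colPart e τ s (F (j + 1) - F j)‖
        ≤ 4 * B * κ ^ 2 / (1 - κ * θ) * N := by
      calc ‖∑ j ∈ Finset.range K, colPart e τ s (F (j + 1) - F j)‖
          ≤ ∑ j ∈ Finset.range K, 4 * B * κ ^ 2 * N * (κ * θ) ^ j :=
            norm_sum_le_of_le _ (fun j _ => h4 j)
        _ = 4 * B * κ ^ 2 * N * ∑ j ∈ Finset.range K, (κ * θ) ^ j := by rw [Finset.mul_sum]
        _ ≤ 4 * B * κ ^ 2 * N * (1 - κ * θ)⁻¹ := by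
            gcongr
            rw [← tsum_geometric_of_lt_one (by positivity) hθ]
            apply (summable_geometric_of_lt_one (by positivity) hθ).sum_le_tsum
            intro i _
            positivity
        _ = _ := by ring
    calc ‖colPart e τ s T‖
        = ‖colPart e τ s (T - F K) + (colPart e τ s (F 0)
            + ∑ j ∈ Finset.range K, colPart e τ s (F (j + 1) - F j))‖ := by
          conv_lhs => rw [h1]
          rw [map_add, map_add, map_sum]
      _ ≤ ‖colPart e τ s (T - F K)‖ + (‖colPart e τ s (F 0)‖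
            + ‖∑ j ∈ Finset.range K, colPart e τ s (F (j + 1) - F j)‖) := by
          refine (norm_add_le _ _).trans ?_
          gcongr
          exact norm_add_le _ _
      _ ≤ √(s.card) * (2 * (θ ^ K * N)) + (3 * B * N + 4 * B * κ ^ 2 / (1 - κ * θ) * N) := by
          gcongr
      _ = _ := by ring
  rcases eq_or_lt_of_le hθ1 with h1 | h1
  · exfalso
    rw [h1, mul_one, hκdef] at hθ
    have : 1 < √(2 * τ ^ 2) := by
      rw [show (1 : ℝ) = √1 from Real.sqrt_one.symm]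
      exact Real.sqrt_lt_sqrt (by norm_num) hτ2
    linarith
  · have hlim : Tendsto (fun K : ℕ => √(s.card) * (2 * (θ ^ K * N))
        + (3 * B + 4 * B * κ ^ 2 / (1 - κ * θ)) * N) atTop
        (𝓝 (√(s.card) * (2 * (0 * N)) + (3 * B + 4 * B * κ ^ 2 / (1 - κ * θ)) * N)) := by
      apply Tendsto.add_const
      apply Tendsto.const_mul
      apply Tendsto.const_mul
      apply Tendsto.mul_const
      exact tendsto_pow_atTop_nhds_zero_of_lt_one hθ0.le h1
    have := ge_of_tendsto' hlim hbd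
    simpa using this

/-- The weighted column bound for the Schatten class. -/
lemma colPart_bound_schatten [CompleteSpace H] {e : ℕ → H} (he : Orthonormal ℂ e) {τ p : ℝ}
    (hp : 0 < p) (hτ1 : τ ^ 2 ≤ 1) (hτ2 : 1 < 2 * τ ^ 2)
    (hθ : √(2 * τ ^ 2) * 2 ^ (-(1 / p)) < 1) :
    ∃ C : ℝ, 0 ≤ C ∧ ∀ (T : H →L[ℂ] H), Summable (fun n => sv T n ^ p) → ∀ s : Finset ℕ,
      ‖colPart e τ s T‖ ≤ C * schattenNorm p T := by
  have hθ0 : (0 : ℝ) < 2 ^ (-(1 / p)) := Real.rpow_pos_of_pos (by norm_num) _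
  have hθ1 : (2 : ℝ) ^ (-(1 / p)) ≤ 1 := by
    apply Real.rpow_le_one_of_one_le_of_nonpos (by norm_num)
    have : 0 < 1 / p := by positivity
    linarith
  obtain ⟨C, hC, hCb⟩ := colPart_bound he hτ1 hτ2 hθ0 hθ1 hθ
  refine ⟨C, hC, fun T hT s => ?_⟩
  apply le_of_forall_pos_le_add
  intro ε hε
  have hN0 := schattenNorm_nonneg p T
  have key := hCb T (schattenNorm p T + ε / (C + 1)) (by positivity)
    (by
      have h1 := norm_le_schattenNorm hp hT
      have h2 : 0 < ε / (C + 1) := by positivity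
      linarith)
    (by
      intro K
      have h1 := sv_le_schattenNorm hp hT (2 ^ K)
      have h2 : (((2 ^ K : ℕ) : ℝ) + 1) ^ (-(1 / p)) ≤ (2 ^ (-(1 / p))) ^ K := by
        rw [← Real.rpow_natCast, ← Real.rpow_mul (by norm_num), mul_comm, Real.rpow_mul (by norm_num),
          Real.rpow_natCast]
        apply Real.rpow_le_rpow_of_nonpos (by positivity)
        · push_cast; linarith
        · have : 0 < 1 / p := by positivity
          linarith
      have h3 : 0 < ε / (C + 1) := by positivity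
      calc sv T (2 ^ K) ≤ (((2 ^ K : ℕ) : ℝ) + 1) ^ (-(1 / p)) * schattenNorm p T := h1
        _ ≤ (2 ^ (-(1 / p))) ^ K * schattenNorm p T := by gcongr
        _ ≤ (2 ^ (-(1 / p))) ^ K * (schattenNorm p T + ε / (C + 1)) := by
            gcongr
            linarith) s
  calc ‖colPart e τ s T‖ ≤ C * (schattenNorm p T + ε / (C + 1)) := key
    _ = C * schattenNorm p T + ε * (C / (C + 1)) := by ring
    _ ≤ C * schattenNorm p T + ε * 1 := by
        gcongr
        rw [div_le_one (by positivity)]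
        linarith
    _ = _ := by ring

end Pool.Agent.H79.Schatten
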