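import Mathlib
import Pool.Agent.H79.SchattenCol2

set_option autoImplicit false

open Filter Topology
open scoped InnerProductSpace ENNReal

noncomputable section

namespace Pool.Agent.H79.Schatten

section restr

variable {E : Type*} [NormedAddCommGroup E] [InnerProductSpace ℂ E]

omit [InnerProductSpace ℂ E] in
lemma memℓp_restr (φ : ℕ → ℕ) (hφ : Function.Injective φ) (f : lp (fun _ : ℕ => E) 2) :
    Memℓp (fun m => f (φ m)) 2 := by
  apply memℓp_gen
  have h := (lp.memℓp f).summable (by norm_num)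
  exact h.comp_injective hφ

/-- Composition with an injection of the index set, on `ℓ²(E)`. -/
def restr (φ : ℕ → ℕ) (hφ : Function.Injective φ) :
    lp (fun _ : ℕ => E) 2 →L[ℂ] lp (fun _ : ℕ => E) 2 :=
  LinearMap.mkContinuous
    { toFun := fun f => (⟨fun m => f (φ m), memℓp_restr φ hφ f⟩ : lp (fun _ : ℕ => E) 2)
      map_add' := fun f g => by ext m; rfl
      map_smul' := fun c f => by ext m; rfl } 1 (by
    intro f
    rw [one_mul]
    apply lp.norm_le_of_tsum_le (by norm_num) (norm_nonneg _)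
    rw [lp.norm_rpow_eq_tsum (by norm_num) f]
    have h := (lp.memℓp f).summable (by norm_num)
    exact tsum_comp_le_tsum_of_inj h (fun _ => by positivity) hφ)

lemma restr_apply (φ : ℕ → ℕ) (hφ : Function.Injective φ) (f : lp (fun _ : ℕ => E) 2) (m : ℕ) :
    restr φ hφ f m = f (φ m) := rfl

lemma norm_restr_le (φ : ℕ → ℕ) (hφ : Function.Injective φ) :
    ‖(restr φ hφ : lp (fun _ : ℕ => E) 2 →L[ℂ] lp (fun _ : ℕ => E) 2)‖ ≤ 1 :=
  LinearMap.mkContinuous_norm_le _ (by norm_num) _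

variable [CompleteSpace E]

lemma adjoint_restr_single (φ : ℕ → ℕ) (hφ : Function.Injective φ) (n : ℕ) (x : E) :
    ContinuousLinearMap.adjoint (restr φ hφ : lp (fun _ : ℕ => E) 2 →L[ℂ] lp (fun _ : ℕ => E) 2)
      (lp.single 2 n x) = lp.single 2 (φ n) x := by
  apply ext_inner_left ℂ
  intro y
  rw [ContinuousLinearMap.adjoint_inner_right, lp.inner_single_right, lp.inner_single_right,
    restr_apply]

end restr

section wop

/-- The diagonal operator with bounded real weights `w` on `ℓ²`. -/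
def diagop (w : ℕ → ℝ) (M : ℝ) (hM : 0 ≤ M) (hw : ∀ n, |w n| ≤ M) :
    lp (fun _ : ℕ => ℂ) 2 →L[ℂ] lp (fun _ : ℕ => ℂ) 2 :=
  lp.mapCLM 2 (fun n => ((w n : ℝ) : ℂ) • ContinuousLinearMap.id ℂ ℂ) hM (by
    intro n
    rw [norm_smul, Complex.norm_real, Real.norm_eq_abs]
    refine (mul_le_mul (hw n) ContinuousLinearMap.norm_id_le (norm_nonneg _) hM).trans ?_
    rw [mul_one])

lemma diagop_apply (w : ℕ → ℝ) (M : ℝ) (hM : 0 ≤ M) (hw : ∀ n, |w n| ≤ M)
    (f : lp (fun _ : ℕ => ℂ) 2) (n : ℕ) : diagop w M hM hw f n = (w n : ℂ) * f n := by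
  rfl

lemma norm_diagop_le (w : ℕ → ℝ) (M : ℝ) (hM : 0 ≤ M) (hw : ∀ n, |w n| ≤ M) :
    ‖diagop w M hM hw‖ ≤ M := lp.norm_mapCLM_le _ _ _ _

lemma diagop_single (w : ℕ → ℝ) (M : ℝ) (hM : 0 ≤ M) (hw : ∀ n, |w n| ≤ M) (n : ℕ) (c : ℂ) :
    diagop w M hM hw (lp.single 2 n c) = lp.single 2 n ((w n : ℂ) * c) := by
  ext m
  rw [diagop_apply]
  by_cases h : m = n
  · subst h
    rw [lp.single_apply_self, lp.single_apply_self]
  · rw [lp.single_apply_ne _ _ _ h, lp.single_apply_ne _ _ _ h, mul_zero]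

variable {H : Type*} [NormedAddCommGroup H] [InnerProductSpace ℂ H] [CompleteSpace H]

/-- The weighted shift `e n ↦ w n • e (φ n)`. -/
def wop (b : HilbertBasis ℕ ℂ H) (φ : ℕ → ℕ) (hφ : Function.Injective φ) (w : ℕ → ℝ) (M : ℝ)
    (hM : 0 ≤ M) (hw : ∀ n, |w n| ≤ M) : H →L[ℂ] H :=
  (b.repr.symm : lp (fun _ : ℕ => ℂ) 2 →L[ℂ] H).comp
    ((ContinuousLinearMap.adjoint
      (restr φ hφ : lp (fun _ : ℕ => ℂ) 2 →L[ℂ] lp (fun _ : ℕ => ℂ) 2)).comp
      ((diagop w M hM hw).comp (b.repr : H →L[ℂ] lp (fun _ : ℕ => ℂ) 2)))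

lemma wop_basis (b : HilbertBasis ℕ ℂ H) (φ : ℕ → ℕ) (hφ : Function.Injective φ) (w : ℕ → ℝ)
    (M : ℝ) (hM : 0 ≤ M) (hw : ∀ n, |w n| ≤ M) (n : ℕ) :
    wop b φ hφ w M hM hw (b n) = (w n : ℂ) • b (φ n) := by
  change b.repr.symm (ContinuousLinearMap.adjoint (restr φ hφ) (diagop w M hM hw (b.repr (b n)))) = _
  rw [b.repr_self, diagop_single, adjoint_restr_single, mul_one]
  have h1 : (lp.single 2 (φ n) (w n : ℂ) : lp (fun _ : ℕ => ℂ) 2)
      = (w n : ℂ) • lp.single 2 (φ n) (1 : ℂ) := by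
    rw [← lp.single_smul, smul_eq_mul, mul_one]
  refine (congrArg b.repr.symm h1).trans ?_
  rw [map_smul, b.repr_symm_single]

omit [CompleteSpace H] in
lemma norm_wop_le (b : HilbertBasis ℕ ℂ H) (φ : ℕ → ℕ) (hφ : Function.Injective φ) (w : ℕ → ℝ)
    (M : ℝ) (hM : 0 ≤ M) (hw : ∀ n, |w n| ≤ M) : ‖wop b φ hφ w M hM hw‖ ≤ M := by
  refine ContinuousLinearMap.opNorm_le_bound _ hM (fun x => ?_)
  change ‖b.repr.symm (ContinuousLinearMap.adjoint (restr φ hφ) (diagop w M hM hw (b.repr x)))‖ ≤ _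
  rw [LinearIsometryEquiv.norm_map]
  calc ‖ContinuousLinearMap.adjoint (restr φ hφ) (diagop w M hM hw (b.repr x))‖
      ≤ ‖ContinuousLinearMap.adjoint
          (restr φ hφ : lp (fun _ : ℕ => ℂ) 2 →L[ℂ] lp (fun _ : ℕ => ℂ) 2)‖
          * ‖diagop w M hM hw (b.repr x)‖ := ContinuousLinearMap.le_opNorm _ _
    _ ≤ 1 * (M * ‖b.repr x‖) := by
        gcongr
        · rw [LinearIsometryEquiv.norm_map]
          exact norm_restr_le φ hφ
        · refine (ContinuousLinearMap.le_opNorm _ _).trans ?_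
          have := norm_diagop_le w M hM hw
          gcongr
    _ = M * ‖x‖ := by rw [one_mul, LinearIsometryEquiv.norm_map]

omit [CompleteSpace H] in
lemma ext_basis (b : HilbertBasis ℕ ℂ H) {S T : H →L[ℂ] H} (h : ∀ n, S (b n) = T (b n)) : S = T := by
  apply ContinuousLinearMap.ext_on (s := Set.range b)
  · have := b.dense_span
    rw [← Submodule.dense_iff_topologicalClosure_eq_top] at this
    exact this
  · rintro _ ⟨n, rfl⟩
    exact h n

lemma adjoint_wop (b : HilbertBasis ℕ ℂ H) (φ : ℕ → ℕ) (hφ : Function.Injective φ) (w : ℕ → ℝ)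
    (M : ℝ) (hM : 0 ≤ M) (hw : ∀ n, |w n| ≤ M) (n : ℕ) :
    ContinuousLinearMap.adjoint (wop b φ hφ w M hM hw) (b (φ n)) = (w n : ℂ) • b n := by
  have key : ∀ m, ⟪b m, ContinuousLinearMap.adjoint (wop b φ hφ w M hM hw) (b (φ n))⟫_ℂ
      = ⟪b m, (w n : ℂ) • b n⟫_ℂ := by
    intro m
    rw [ContinuousLinearMap.adjoint_inner_right, wop_basis, inner_smul_left, inner_smul_right,
      Complex.conj_ofReal]
    have ho := b.orthonormal
    rw [orthonormal_iff_ite] at ho
    rw [ho, ho]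
    by_cases h : m = n
    · subst h; simp
    · have h2 : φ m ≠ φ n := fun h3 => h (hφ h3)
      simp [h, h2]
  apply b.repr.injective
  ext m
  rw [b.repr_apply_apply, b.repr_apply_apply]
  exact key m

lemma wop_rank (b : HilbertBasis ℕ ℂ H) (φ : ℕ → ℕ) (hφ : Function.Injective φ) (w : ℕ → ℝ)
    (M : ℝ) (hM : 0 ≤ M) (hw : ∀ n, |w n| ≤ M) (m : ℕ) (hwm : ∀ n, m ≤ n → w n = 0) :
    wop b φ hφ w M hM hw ∈ rankLE H m := by
  have h1 : wop b φ hφ w M hM hw
      = ∑ j ∈ Finset.range m, (innerSL ℂ (b j)).smulRight ((w j : ℂ) • b (φ j)) := by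
    apply ext_basis b
    intro n
    rw [wop_basis, sum_apply]
    have ho := b.orthonormal
    rw [orthonormal_iff_ite] at ho
    simp only [ContinuousLinearMap.smulRight_apply, innerSL_apply_apply, ho]
    by_cases hn : n < m
    · rw [Finset.sum_eq_single n]
      · simp
      · intro j _ hj
        simp [hj]
      · intro h
        exact absurd (Finset.mem_range.mpr hn) h
    · rw [hwm n (not_lt.mp hn)]
      rw [Finset.sum_eq_zero]
      · simp
      · intro j hj
        have : j ≠ n := by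
          have := Finset.mem_range.mp hj
          omega
        simp [this]
  rw [h1]
  have h2 : ∀ j : ℕ, (innerSL ℂ (b j)).smulRight ((w j : ℂ) • b (φ j)) ∈ rankLE H 1 := by
    intro j
    unfold rankLE
    simp only [Set.mem_ofPred_eq, Nat.cast_one]
    have h3 : LinearMap.range (((innerSL ℂ (b j)).smulRight ((w j : ℂ) • b (φ j)) : H →L[ℂ] H)
        : H →ₗ[ℂ] H) ≤ Submodule.span ℂ {(w j : ℂ) • b (φ j)} := by
      rintro _ ⟨x, rfl⟩
      exact Submodule.mem_span_singleton.mpr ⟨_, rfl⟩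
    refine (Submodule.rank_mono h3).trans ?_
    exact (rank_span_le _).trans (by simp)
  have h4 : ∀ s : Finset ℕ, ∑ j ∈ s, (innerSL ℂ (b j)).smulRight ((w j : ℂ) • b (φ j))
      ∈ rankLE H s.card := by
    intro s
    classical
    induction s using Finset.induction_on with
    | empty => simpa using zero_mem_rankLE 0
    | insert a s ha ih =>
      rw [Finset.sum_insert ha, Finset.card_insert_of_notMem ha, add_comm s.card]
      exact add_mem_rankLE (h2 a) ih
  have h5 := h4 (Finset.range m)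
  rwa [Finset.card_range] at h5

lemma exists_approx_wop (b : HilbertBasis ℕ ℂ H) (φ : ℕ → ℕ) (hφ : Function.Injective φ)
    (w : ℕ → ℝ) (hw0 : ∀ n, 0 ≤ w n) (hwa : Antitone w) (M : ℝ) (hM : 0 ≤ M)
    (hw : ∀ n, |w n| ≤ M) (m : ℕ) :
    ∃ F ∈ rankLE H m, ‖wop b φ hφ w M hM hw - F‖ ≤ w m := by
  have hw1 : ∀ n, |(fun n => if n < m then w n else 0) n| ≤ M := by
    intro n
    by_cases h : n < m
    · simp only [h, if_true]; exact hw n
    · simp only [h, if_false, abs_zero]; exact hM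
  have hw2 : ∀ n, |(fun n => if n < m then 0 else w n) n| ≤ w m := by
    intro n
    by_cases h : n < m
    · simp only [h, if_true, abs_zero]; exact hw0 m
    · simp only [h, if_false]
      rw [abs_of_nonneg (hw0 n)]
      exact hwa (not_lt.mp h)
  refine ⟨wop b φ hφ (fun n => if n < m then w n else 0) M hM hw1, ?_, ?_⟩
  · apply wop_rank
    intro n hn
    simp [not_lt.mpr hn]
  · have h1 : wop b φ hφ w M hM hw - wop b φ hφ (fun n => if n < m then w n else 0) M hM hw1
        = wop b φ hφ (fun n => if n < m then 0 else w n) (w m) (hw0 m) hw2 := by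
      apply ext_basis b
      intro n
      rw [sub_apply, wop_basis, wop_basis, wop_basis, ← sub_smul]
      congr 1
      by_cases h : n < m <;> simp [h]
    rw [h1]
    exact norm_wop_le _ _ _ _ _ _ _

lemma sv_wop_le (b : HilbertBasis ℕ ℂ H) (φ : ℕ → ℕ) (hφ : Function.Injective φ)
    (w : ℕ → ℝ) (hw0 : ∀ n, 0 ≤ w n) (hwa : Antitone w) (M : ℝ) (hM : 0 ≤ M)
    (hw : ∀ n, |w n| ≤ M) (m : ℕ) : sv (wop b φ hφ w M hM hw) m ≤ w m := by
  obtain ⟨F, hF, hF'⟩ := exists_approx_wop b φ hφ w hw0 hwa M hM hw m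
  exact (sv_le_of_mem hF).trans hF'

end wop

end Pool.Agent.H79.Schatten
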