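import Mathlib

set_option autoImplicit false

open Filter Topology

noncomputable section

namespace Pool.Agent.H79.SemiAm

/-- A Banach bimodule over a complex algebra `A` whose norm is the function `ν`: a complex Banach
space `X` with a left action `l` and a right action `r` of `A` that commute, satisfy the usual
associativity rules and are bounded with respect to `ν`. -/
structure BanachBimodule (A : Type*) [NonUnitalRing A] [Module ℂ A] (ν : A → ℝ)
    (X : Type*) [NormedAddCommGroup X] [NormedSpace ℂ X] where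
  /-- the left action `x ↦ a · x` -/
  l : A →ₗ[ℂ] X →L[ℂ] X
  /-- the right action `x ↦ x · a` -/
  r : A →ₗ[ℂ] X →L[ℂ] X
  l_mul : ∀ (a b : A) (x : X), l (a * b) x = l a (l b x)
  r_mul : ∀ (a b : A) (x : X), r (a * b) x = r b (r a x)
  l_r : ∀ (a b : A) (x : X), l a (r b x) = r b (l a x)
  l_bound : ∃ C : ℝ, ∀ (a : A) (x : X), ‖l a x‖ ≤ C * ν a * ‖x‖
  r_bound : ∃ C : ℝ, ∀ (a : A) (x : X), ‖r a x‖ ≤ C * ν a * ‖x‖

variable {A : Type*} [NonUnitalRing A] [Module ℂ A] {ν : A → ℝ}
  {X : Type*} [NormedAddCommGroup X] [NormedSpace ℂ X]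

/-- The left action of `A` on the dual space `X*`: `(a · f)(x) = f(x · a)`. -/
def BanachBimodule.dualL (M : BanachBimodule A ν X) (a : A) (f : X →L[ℂ] ℂ) : X →L[ℂ] ℂ :=
  f.comp (M.r a)

/-- The right action of `A` on the dual space `X*`: `(f · a)(x) = f(a · x)`. -/
def BanachBimodule.dualR (M : BanachBimodule A ν X) (f : X →L[ℂ] ℂ) (a : A) : X →L[ℂ] ℂ :=
  f.comp (M.l a)

/-- `D : A → X*` is a continuous derivation: it is linear, `D(ab) = a · D(b) + D(a) · b`, and it is
bounded with respect to `ν`. -/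
structure IsContDerivation (M : BanachBimodule A ν X) (D : A →ₗ[ℂ] (X →L[ℂ] ℂ)) : Prop where
  leibniz : ∀ a b : A, D (a * b) = M.dualL a (D b) + M.dualR (D a) b
  bound : ∃ C : ℝ, ∀ a : A, ‖D a‖ ≤ C * ν a

/-- `D : A → X*` is approximately semi-inner: there are nets `(ξ i)` and `(η i)` in `X*` with
`D(a) = lim (a · ξ i - η i · a)` in norm, for every `a`. -/
def ApproxSemiInner (M : BanachBimodule A ν X) (D : A →ₗ[ℂ] (X →L[ℂ] ℂ)) : Prop :=
  ∃ (ι : Type) (_ : Preorder ι) (_ : IsDirectedOrder ι) (_ : Nonempty ι)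
    (ξ η : ι → X →L[ℂ] ℂ), ∀ a : A,
      Tendsto (fun i => M.dualL a (ξ i) - M.dualR (η i) a) atTop (𝓝 (D a))

/-- The algebra `A` with norm `ν` is approximately semi-amenable: for every Banach `A`-bimodule `X`,
every continuous derivation `A → X*` is approximately semi-inner. -/
def ApproxSemiAmenable (A : Type) [NonUnitalRing A] [Module ℂ A] (ν : A → ℝ) : Prop :=
  ∀ (X : Type) [NormedAddCommGroup X] [NormedSpace ℂ X] [CompleteSpace X]
    (M : BanachBimodule A ν X) (D : A →ₗ[ℂ] (X →L[ℂ] ℂ)),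
    IsContDerivation M D → ApproxSemiInner M D

end Pool.Agent.H79.SemiAm
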