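import Mathlib
import Pool.Agent.H79.SemiAmenable

set_option autoImplicit false

open Filter Topology

noncomputable section

namespace Pool.Agent.H79.SemiAm

section criterion

variable {A : Type} [NonUnitalRing A] [Module ℂ A]
  {C : Type} [NormedAddCommGroup C] [NormedSpace ℂ C]

/-- The left action on `ℂ³ × C* × C`. -/
def actL (amp : A →ₗ[ℂ] C →L[ℂ] C) (col : A →ₗ[ℂ] C) (M : Fin 3 → C →L[ℂ] C) :
    A →ₗ[ℂ] ((Fin 3 → ℂ) × (C →L[ℂ] ℂ) × C) →L[ℂ] ((Fin 3 → ℂ) × (C →L[ℂ] ℂ) × C) where
  toFun a :=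
    { toFun := fun x => (0, 0, (∑ j, x.1 j • M j (col a)) + amp a x.2.2)
      map_add' := by
        intro x y
        refine Prod.ext (by simp) (Prod.ext (by simp) ?_)
        simp only [Prod.fst_add, Prod.snd_add, Pi.add_apply, add_smul, Finset.sum_add_distrib,
          map_add]
        abel
      map_smul' := by
        intro k x
        refine Prod.ext (smul_zero k).symm (Prod.ext
          (ContinuousLinearMap.ext fun y' => (mul_zero k).symm) ?_)
        simp only [Prod.smul_fst, Prod.smul_snd, Pi.smul_apply, smul_eq_mul, mul_smul,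
          map_smul, RingHom.id_apply, smul_add, Finset.smul_sum]
      cont := by fun_prop }
  map_add' a b := by
    apply ContinuousLinearMap.ext
    intro x
    refine Prod.ext (by simp) (Prod.ext (by simp) ?_)
    simp only [map_add, smul_add, Finset.sum_add_distrib, ContinuousLinearMap.coe_mk',
      LinearMap.coe_mk, AddHom.coe_mk, add_apply, Prod.snd_add]
    abel
  map_smul' k a := by
    apply ContinuousLinearMap.ext
    intro x
    refine Prod.ext (smul_zero k).symm (Prod.ext
      (ContinuousLinearMap.ext fun y' => (mul_zero k).symm) ?_)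
    simp only [map_smul, smul_comm _ k, ContinuousLinearMap.coe_mk',
      LinearMap.coe_mk, AddHom.coe_mk, smul_apply, Prod.smul_snd, RingHom.id_apply,
      smul_add, Finset.smul_sum]

lemma actL_apply (amp : A →ₗ[ℂ] C →L[ℂ] C) (col : A →ₗ[ℂ] C) (M : Fin 3 → C →L[ℂ] C) (a : A)
    (x : (Fin 3 → ℂ) × (C →L[ℂ] ℂ) × C) :
    actL amp col M a x = (0, 0, (∑ j, x.1 j • M j (col a)) + amp a x.2.2) := rfl

/-- The right action on `ℂ³ × C* × C`. -/
def actR (amp : A →ₗ[ℂ] C →L[ℂ] C) (R : A →ₗ[ℂ] C →L[ℂ] ℂ) (M : Fin 3 → C →L[ℂ] C) :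
    A →ₗ[ℂ] ((Fin 3 → ℂ) × (C →L[ℂ] ℂ) × C) →L[ℂ] ((Fin 3 → ℂ) × (C →L[ℂ] ℂ) × C) where
  toFun a :=
    { toFun := fun x => (0, (∑ j, x.1 j • (R a).comp (M j)) + x.2.1.comp (amp a), 0)
      map_add' := by
        intro x y
        refine Prod.ext (by simp) (Prod.ext ?_ (by simp))
        apply ContinuousLinearMap.ext
        intro y'
        simp only [Prod.fst_add, Prod.snd_add, Pi.add_apply, add_apply, sum_apply, smul_apply,
          ContinuousLinearMap.comp_apply, smul_eq_mul, add_mul, Finset.sum_add_distrib]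
        ring
      map_smul' := by
        intro k x
        refine Prod.ext (smul_zero k).symm (Prod.ext ?_ (smul_zero k).symm)
        apply ContinuousLinearMap.ext
        intro y'
        simp only [Prod.smul_fst, Prod.smul_snd, Pi.smul_apply, add_apply, sum_apply, smul_apply,
          ContinuousLinearMap.comp_apply, smul_eq_mul, mul_add, Finset.mul_sum, mul_assoc,
          RingHom.id_apply]
      cont := by fun_prop }
  map_add' a b := by
    apply ContinuousLinearMap.ext
    intro x
    refine Prod.ext (by simp) (Prod.ext ?_ (by simp))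
    apply ContinuousLinearMap.ext
    intro y'
    simp only [map_add, ContinuousLinearMap.coe_mk', LinearMap.coe_mk, AddHom.coe_mk, add_apply,
      Prod.snd_add, Prod.fst_add, sum_apply, smul_apply, ContinuousLinearMap.comp_apply,
      smul_eq_mul, mul_add, Finset.sum_add_distrib]
    ring
  map_smul' k a := by
    apply ContinuousLinearMap.ext
    intro x
    refine Prod.ext (smul_zero k).symm (Prod.ext ?_ (smul_zero k).symm)
    apply ContinuousLinearMap.ext
    intro y'
    simp only [map_smul, ContinuousLinearMap.coe_mk', LinearMap.coe_mk, AddHom.coe_mk, smul_apply,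
      add_apply, Prod.smul_snd, Prod.smul_fst, sum_apply, ContinuousLinearMap.comp_apply,
      RingHom.id_apply, smul_eq_mul, mul_add, Finset.mul_sum, mul_left_comm k]

lemma actR_apply (amp : A →ₗ[ℂ] C →L[ℂ] C) (R : A →ₗ[ℂ] C →L[ℂ] ℂ) (M : Fin 3 → C →L[ℂ] C) (a : A)
    (x : (Fin 3 → ℂ) × (C →L[ℂ] ℂ) × C) :
    actR amp R M a x = (0, (∑ j, x.1 j • (R a).comp (M j)) + x.2.1.comp (amp a), 0) := rfl

/-- The derivation. -/
def derD (col : A →ₗ[ℂ] C) (R : A →ₗ[ℂ] C →L[ℂ] ℂ) :
    A →ₗ[ℂ] ((Fin 3 → ℂ) × (C →L[ℂ] ℂ) × C) →L[ℂ] ℂ where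
  toFun a :=
    { toFun := fun x => x.2.1 (col a) - R a x.2.2
      map_add' := by
        intro x y
        simp only [Prod.fst_add, Prod.snd_add, add_apply, map_add]
        ring
      map_smul' := by
        intro k x
        simp only [Prod.smul_fst, Prod.smul_snd, smul_apply, smul_eq_mul, map_smul,
          RingHom.id_apply]
        ring
      cont := by fun_prop }
  map_add' a b := by
    apply ContinuousLinearMap.ext
    intro x
    simp only [map_add, ContinuousLinearMap.coe_mk', LinearMap.coe_mk, AddHom.coe_mk, add_apply]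
    ring
  map_smul' k a := by
    apply ContinuousLinearMap.ext
    intro x
    simp only [map_smul, ContinuousLinearMap.coe_mk', LinearMap.coe_mk, AddHom.coe_mk, smul_apply,
      RingHom.id_apply, smul_eq_mul]
    ring

lemma derD_apply (col : A →ₗ[ℂ] C) (R : A →ₗ[ℂ] C →L[ℂ] ℂ) (a : A)
    (x : (Fin 3 → ℂ) × (C →L[ℂ] ℂ) × C) : derD col R a x = x.2.1 (col a) - R a x.2.2 := rfl

/-- The Banach bimodule `ℂ³ × C* × C`. -/
def bim (ν : A → ℝ) (amp : A →ₗ[ℂ] C →L[ℂ] C)
    (hamp : ∀ (a b : A) (x : C), amp (a * b) x = amp a (amp b x))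
    (col : A →ₗ[ℂ] C) (hcol : ∀ a b : A, col (a * b) = amp a (col b))
    (R : A →ₗ[ℂ] C →L[ℂ] ℂ) (hR : ∀ (a b : A) (x : C), R (a * b) x = R a (amp b x))
    (M : Fin 3 → C →L[ℂ] C) (hM : ∀ (j : Fin 3) (a : A) (x : C), M j (amp a x) = amp a (M j x))
    (K : ℝ) (hK : ∀ a : A, ‖amp a‖ ≤ K * ν a ∧ ‖col a‖ ≤ K * ν a ∧ ‖R a‖ ≤ K * ν a) :
    BanachBimodule A ν ((Fin 3 → ℂ) × (C →L[ℂ] ℂ) × C) where
  l := actL amp col M
  r := actR amp R M
  l_mul a b x := by
    simp only [actL_apply]
    refine Prod.ext rfl (Prod.ext rfl ?_)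
    simp only [hcol, hM, hamp, map_add, map_sum, map_smul, Pi.zero_apply, zero_smul,
      Finset.sum_const_zero, zero_add]
  r_mul a b x := by
    simp only [actR_apply]
    refine Prod.ext rfl (Prod.ext ?_ rfl)
    apply ContinuousLinearMap.ext
    intro y
    simp only [add_apply, sum_apply, smul_apply, ContinuousLinearMap.comp_apply, hR, hamp, hM,
      Pi.zero_apply, zero_smul, Finset.sum_const_zero, zero_add]
  l_r a b x := by
    simp only [actL_apply, actR_apply]
    refine Prod.ext rfl (Prod.ext ?_ ?_)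
    · apply ContinuousLinearMap.ext
      intro y
      simp only [add_apply, sum_apply, smul_apply, ContinuousLinearMap.comp_apply,
        Pi.zero_apply, zero_smul, Finset.sum_const_zero, zero_add, zero_apply]
    · simp only [Pi.zero_apply, zero_smul, Finset.sum_const_zero, zero_add, map_zero]
  l_bound := by
    refine ⟨(∑ j, ‖M j‖ + 1) * K, fun a x => ?_⟩
    have hx1 : ∀ j, ‖x.1 j‖ ≤ ‖x‖ := fun j => (norm_le_pi_norm x.1 j).trans (norm_fst_le x)
    have hx2 : ‖x.2.2‖ ≤ ‖x‖ := (norm_snd_le x.2).trans (norm_snd_le x)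
    have hx0 : 0 ≤ ‖x‖ := norm_nonneg x
    have h0 : 0 ≤ K * ν a := (norm_nonneg _).trans (hK a).1
    have h1 : ‖actL amp col M a x‖ = ‖(∑ j, x.1 j • M j (col a)) + amp a x.2.2‖ := by
      rw [actL_apply, Prod.norm_def, Prod.norm_def]
      simp
    rw [h1]
    calc ‖(∑ j, x.1 j • M j (col a)) + amp a x.2.2‖
        ≤ ‖∑ j, x.1 j • M j (col a)‖ + ‖amp a x.2.2‖ := norm_add_le _ _
      _ ≤ (∑ j, ‖x‖ * (‖M j‖ * (K * ν a))) + (K * ν a) * ‖x‖ := by
          gcongr
          · refine norm_sum_le_of_le _ (fun j _ => ?_)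
            rw [norm_smul]
            have h2 := hx1 j
            have h3 : ‖M j (col a)‖ ≤ ‖M j‖ * (K * ν a) :=
              ((M j).le_opNorm _).trans (by gcongr; exact (hK a).2.1)
            gcongr
          · refine ((amp a).le_opNorm _).trans ?_
            have := (hK a).1
            gcongr
      _ = _ := by
          rw [← Finset.mul_sum, ← Finset.sum_mul]
          ring
  r_bound := by
    refine ⟨(∑ j, ‖M j‖ + 1) * K, fun a x => ?_⟩
    have hx1 : ∀ j, ‖x.1 j‖ ≤ ‖x‖ := fun j => (norm_le_pi_norm x.1 j).trans (norm_fst_le x)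
    have hx2 : ‖x.2.1‖ ≤ ‖x‖ := (norm_fst_le x.2).trans (norm_snd_le x)
    have hx0 : 0 ≤ ‖x‖ := norm_nonneg x
    have h0 : 0 ≤ K * ν a := (norm_nonneg _).trans (hK a).1
    have h1 : ‖actR amp R M a x‖ = ‖(∑ j, x.1 j • (R a).comp (M j)) + x.2.1.comp (amp a)‖ := by
      rw [actR_apply, Prod.norm_def, Prod.norm_def]
      simp
    rw [h1]
    calc ‖(∑ j, x.1 j • (R a).comp (M j)) + x.2.1.comp (amp a)‖
        ≤ ‖∑ j, x.1 j • (R a).comp (M j)‖ + ‖x.2.1.comp (amp a)‖ := norm_add_le _ _
      _ ≤ (∑ j, ‖x‖ * (‖M j‖ * (K * ν a))) + (K * ν a) * ‖x‖ := by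
          gcongr
          · refine norm_sum_le_of_le _ (fun j _ => ?_)
            rw [norm_smul]
            have h2 := hx1 j
            have h3 : ‖(R a).comp (M j)‖ ≤ ‖M j‖ * (K * ν a) := by
              refine (ContinuousLinearMap.opNorm_comp_le _ _).trans ?_
              rw [mul_comm]
              gcongr
              exact (hK a).2.2
            gcongr
          · refine (ContinuousLinearMap.opNorm_comp_le _ _).trans ?_
            rw [mul_comm]
            have := (hK a).1
            gcongr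
      _ = _ := by
          rw [← Finset.mul_sum, ← Finset.sum_mul]
          ring

/-- Abstract criterion for failure of approximate semi-amenability. -/
theorem not_asa_of_data [CompleteSpace C] (ν : A → ℝ) (amp : A →ₗ[ℂ] C →L[ℂ] C)
    (hamp : ∀ (a b : A) (x : C), amp (a * b) x = amp a (amp b x))
    (col : A →ₗ[ℂ] C) (hcol : ∀ a b : A, col (a * b) = amp a (col b))
    (R : A →ₗ[ℂ] C →L[ℂ] ℂ) (hR : ∀ (a b : A) (x : C), R (a * b) x = R a (amp b x))
    (M : Fin 3 → C →L[ℂ] C) (hM : ∀ (j : Fin 3) (a : A) (x : C), M j (amp a x) = amp a (M j x))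
    (K : ℝ) (hK : ∀ a : A, ‖amp a‖ ≤ K * ν a ∧ ‖col a‖ ≤ K * ν a ∧ ‖R a‖ ≤ K * ν a)
    (a : Fin 3 → A) (z : C) (h1 : ∀ x, ∑ j, R (a j) (M j x) = 0)
    (h2 : ∑ j, M j (col (a j)) = amp (a 2) z) (h3 : R (a 2) z ≠ 0) :
    ¬ ApproxSemiAmenable A ν := by
  intro hasa
  let B := bim ν amp hamp col hcol R hR M hM K hK
  have hder : IsContDerivation B (derD col R) := by
    constructor
    · intro a b
      apply ContinuousLinearMap.ext
      intro x
      change derD col R (a * b) x = derD col R b (actR amp R M a x) + derD col R a (actL amp col M b x)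
      rw [derD_apply, derD_apply, derD_apply, actR_apply, actL_apply]
      simp only [add_apply, sum_apply, smul_apply, ContinuousLinearMap.comp_apply, hR, hcol,
        map_add, map_sum, map_smul, map_zero, zero_apply]
      ring
    · refine ⟨2 * K, fun a => ?_⟩
      have h0 : 0 ≤ K * ν a := (norm_nonneg _).trans (hK a).1
      refine ContinuousLinearMap.opNorm_le_bound _ (by linarith) (fun x => ?_)
      have hx1 : ‖x.2.1‖ ≤ ‖x‖ := (norm_fst_le x.2).trans (norm_snd_le x)
      have hx2 : ‖x.2.2‖ ≤ ‖x‖ := (norm_snd_le x.2).trans (norm_snd_le x)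
      rw [derD_apply]
      calc ‖x.2.1 (col a) - R a x.2.2‖ ≤ ‖x.2.1 (col a)‖ + ‖R a x.2.2‖ := norm_sub_le _ _
        _ ≤ ‖x‖ * (K * ν a) + (K * ν a) * ‖x‖ := by
            gcongr
            · refine (x.2.1.le_opNorm _).trans ?_
              have := (hK a).2.1
              gcongr
            · refine ((R a).le_opNorm _).trans ?_
              have := (hK a).2.2
              gcongr
        _ = 2 * K * ν a * ‖x‖ := by ring
  obtain ⟨ι, _, _, _, ξ, η, hlim⟩ := hasa _ B (derD col R) hder
  -- evaluate at the three vectors `t j`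
  have e1 : ∀ j : Fin 3, Tendsto (fun i => ξ i (actR amp R M (a j) (Pi.single j 1, 0, 0))
      - η i (actL amp col M (a j) (Pi.single j 1, 0, 0))) atTop
      (𝓝 (derD col R (a j) (Pi.single j 1, 0, 0))) := by
    intro j
    have := ((ContinuousLinearMap.apply ℂ ℂ
      ((Pi.single j 1, 0, 0) : (Fin 3 → ℂ) × (C →L[ℂ] ℂ) × C)).continuous.tendsto _).comp (hlim (a j))
    exact this
  have e2 : Tendsto (fun i => ∑ j, (ξ i (actR amp R M (a j) (Pi.single j 1, 0, 0))
      - η i (actL amp col M (a j) (Pi.single j 1, 0, 0)))) atTop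
      (𝓝 (∑ j, derD col R (a j) (Pi.single j 1, 0, 0))) :=
    tendsto_finsetSum _ (fun j _ => e1 j)
  have e3 : ∀ i, ∑ j, (ξ i (actR amp R M (a j) (Pi.single j 1, 0, 0))
      - η i (actL amp col M (a j) (Pi.single j 1, 0, 0))) = - η i (0, 0, amp (a 2) z) := by
    intro i
    rw [Finset.sum_sub_distrib, ← map_sum, ← map_sum]
    have f1 : ∑ j, actR amp R M (a j) (Pi.single j 1, 0, 0) = 0 := by
      simp only [actR_apply]
      refine Prod.ext (by simp [Prod.fst_sum]) (Prod.ext ?_ (by simp [Prod.snd_sum]))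
      rw [Prod.snd_sum, Prod.fst_sum]
      apply ContinuousLinearMap.ext
      intro y
      rw [sum_apply]
      have f2 : ∀ j : Fin 3, ((∑ j_1, (Pi.single j 1 : Fin 3 → ℂ) j_1 • (R (a j)).comp (M j_1))
          + (0 : C →L[ℂ] ℂ).comp (amp (a j))) y = R (a j) (M j y) := by
        intro j
        simp only [ContinuousLinearMap.zero_comp, add_zero, sum_apply, smul_apply,
          ContinuousLinearMap.comp_apply]
        rw [Finset.sum_eq_single j]
        · simp
        · intro b _ hb
          simp [Pi.single_eq_of_ne hb]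
        · simp
      rw [Finset.sum_congr rfl (fun j _ => f2 j)]
      exact h1 y
    have f3 : ∑ j, actL amp col M (a j) (Pi.single j 1, 0, 0) = (0, 0, amp (a 2) z) := by
      simp only [actL_apply]
      refine Prod.ext (by simp [Prod.fst_sum]) (Prod.ext (by simp [Prod.snd_sum, Prod.fst_sum]) ?_)
      rw [Prod.snd_sum, Prod.snd_sum, ← h2]
      change _ = ∑ j, (M j) (col (a j))
      apply Finset.sum_congr rfl
      intro j _
      simp only [map_zero, add_zero]
      rw [Finset.sum_eq_single j]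
      · simp
      · intro b _ hb
        simp [Pi.single_eq_of_ne hb]
      · simp
    rw [f1, f3]
    simp
  have e4 : ∑ j, derD col R (a j) (Pi.single j 1, 0, 0) = 0 := by
    apply Finset.sum_eq_zero
    intro j _
    rw [derD_apply]
    simp
  simp only [e3, e4] at e2
  have e5 : Tendsto (fun i => ξ i (actR amp R M (a 2) (0, 0, z))
      - η i (actL amp col M (a 2) (0, 0, z))) atTop
      (𝓝 (derD col R (a 2) (0, 0, z))) := by
    have := ((ContinuousLinearMap.apply ℂ ℂ
      ((0, 0, z) : (Fin 3 → ℂ) × (C →L[ℂ] ℂ) × C)).continuous.tendsto _).comp (hlim (a 2))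
    exact this
  have e6 : ∀ i, ξ i (actR amp R M (a 2) (0, 0, z)) - η i (actL amp col M (a 2) (0, 0, z))
      = - η i (0, 0, amp (a 2) z) := by
    intro i
    have g1 : actR amp R M (a 2) (0, 0, z) = 0 := by
      rw [actR_apply]
      refine Prod.ext rfl (Prod.ext ?_ rfl)
      apply ContinuousLinearMap.ext
      intro y
      simp [sum_apply]
    have g2 : actL amp col M (a 2) (0, 0, z) = (0, 0, amp (a 2) z) := by
      rw [actL_apply]
      simp
    rw [g1, g2]
    simp
  simp only [e6] at e5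
  have e7 := tendsto_nhds_unique e5 e2
  rw [derD_apply] at e7
  simp at e7
  exact h3 e7

end criterion

end Pool.Agent.H79.SemiAm
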