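import Mathlib
import Pool.Agent.H79.SchattenOps
import Pool.Agent.H79.SemiAmCriterion

set_option autoImplicit false

open Filter Topology
open scoped InnerProductSpace ENNReal

noncomputable section

namespace Pool.Agent.H79.Schatten

open Pool.Agent.H79.SemiAm

section compact

variable {H : Type*} [NormedAddCommGroup H] [InnerProductSpace ℂ H] [CompleteSpace H]

omit [CompleteSpace H] in
lemma isCompact_of_rankLE {F : H →L[ℂ] H} {n : ℕ} (hF : F ∈ rankLE H n) : IsCompactOperator F := by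
  unfold rankLE at hF
  simp only [Set.mem_ofPred_eq] at hF
  have hfin : FiniteDimensional ℂ (LinearMap.range (F : H →ₗ[ℂ] H)) := by
    rw [FiniteDimensional, ← Module.rank_lt_aleph0_iff]
    exact lt_of_le_of_lt hF (Cardinal.natCast_lt_aleph0)
  have : ProperSpace (LinearMap.range (F : H →ₗ[ℂ] H)) := FiniteDimensional.proper ℂ _
  let G : H →L[ℂ] (LinearMap.range (F : H →ₗ[ℂ] H)) :=
    F.codRestrict (LinearMap.range (F : H →ₗ[ℂ] H)) (fun x => ⟨x, rfl⟩)
  have hG : IsCompactOperator G :=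
    isCompactOperator_of_locallyCompactSpace_dom G
  have h2 := hG.clm_comp (Submodule.subtypeL (LinearMap.range (F : H →ₗ[ℂ] H)))
  exact h2

lemma isCompact_of_summable {p : ℝ} (hp : 0 < p) {T : H →L[ℂ] H}
    (hT : Summable (fun n => sv T n ^ p)) : IsCompactOperator T := by
  have hex : ∀ n : ℕ, ∃ F ∈ rankLE H n, ‖T - F‖ < sv T n + 1 / ((n : ℝ) + 1) := by
    intro n
    apply exists_of_sv_lt
    have : (0 : ℝ) < 1 / ((n : ℝ) + 1) := by positivity
    linarith
  choose F hF hFT using hex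
  have h1 : Tendsto F atTop (𝓝 T) := by
    rw [tendsto_iff_norm_sub_tendsto_zero]
    have h2 : Tendsto (fun n : ℕ => ((n : ℝ) + 1) ^ (-(1 / p)) * schattenNorm p T
        + 1 / ((n : ℝ) + 1)) atTop (𝓝 (0 * schattenNorm p T + 0)) := by
      apply Tendsto.add
      · apply Tendsto.mul_const
        have h3 := tendsto_rpow_neg_atTop (show 0 < 1 / p by positivity)
        refine h3.comp ?_
        exact tendsto_atTop_add_const_right _ _ tendsto_natCast_atTop_atTop
      · exact tendsto_one_div_add_atTop_nhds_zero_nat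
    rw [zero_mul, add_zero] at h2
    refine squeeze_zero (fun n => norm_nonneg _) (fun n => ?_) h2
    rw [norm_sub_rev]
    refine (hFT n).le.trans ?_
    gcongr
    exact sv_le_schattenNorm hp hT n
  exact isCompactOperator_of_tendsto h1 (Eventually.of_forall (fun n => isCompact_of_rankLE (hF n)))

end compact

section weights

lemma lev_mono : Monotone lev := by
  intro m n h
  exact Nat.log_mono_right (by omega)

lemma antitone_weight {ω : ℝ} (h0 : 0 ≤ ω) (h1 : ω ≤ 1) : Antitone (fun n => ω ^ lev n) := by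
  intro m n h
  exact pow_le_pow_of_le_one h0 h1 (lev_mono h)

lemma summable_weight {t : ℝ} (h0 : 0 ≤ t) (h1 : 2 * t < 1) : Summable (fun n => t ^ lev n) := by
  apply summable_of_sum_range_le (c := (1 - 2 * t)⁻¹) (fun n => by positivity)
  intro n
  calc ∑ i ∈ Finset.range n, t ^ lev i ≤ ∑ i ∈ Finset.range (2 ^ n - 1), t ^ lev i := by
        apply Finset.sum_le_sum_of_subset_of_nonneg
        · intro i hi
          rw [Finset.mem_range] at *
          have := Nat.lt_two_pow_self (n := n)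
          omega
        · intro i _ _
          positivity
    _ = ∑ k ∈ Finset.range n, (2 * t) ^ k := sum_lev t n
    _ ≤ (1 - 2 * t)⁻¹ := by
        rw [← tsum_geometric_of_lt_one (by positivity) h1]
        apply (summable_geometric_of_lt_one (by positivity) h1).sum_le_tsum
        intro i _
        positivity

end weights

section maps

variable {H : Type} [NormedAddCommGroup H] [InnerProductSpace ℂ H]

lemma memCol {e : ℕ → H} {τ p C : ℝ}
    (hC : ∀ (T : H →L[ℂ] H), Summable (fun n => sv T n ^ p) → ∀ s : Finset ℕ,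
      ‖colPart e τ s T‖ ≤ C * schattenNorm p T)
    {T : H →L[ℂ] H} (hT : Summable (fun n => sv T n ^ p)) :
    Memℓp (fun n => ((τ ^ lev n : ℝ) : ℂ) • T (e n)) 2 := by
  apply memℓp_gen' (C := (C * schattenNorm p T) ^ 2)
  intro s
  have h1 := hC T hT s
  have h2 := norm_sq_colPart e τ s T
  have h3 : ∑ i ∈ s, ‖((τ ^ lev i : ℝ) : ℂ) • T (e i)‖ ^ (2 : ENNReal).toReal
      = ‖colPart e τ s T‖ ^ 2 := by
    rw [h2]
    apply Finset.sum_congr rfl
    intro n _
    rw [norm_smul, Complex.norm_real, ENNReal.toReal_ofNat, Real.rpow_two, mul_pow,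
      Real.norm_eq_abs, sq_abs]
    ring
  rw [h3]
  gcongr

/-- The full weighted column vector of an operator. -/
def colv {e : ℕ → H} {τ p C : ℝ}
    (hC : ∀ (T : H →L[ℂ] H), Summable (fun n => sv T n ^ p) → ∀ s : Finset ℕ,
      ‖colPart e τ s T‖ ≤ C * schattenNorm p T)
    (T : H →L[ℂ] H) (hT : Summable (fun n => sv T n ^ p)) : lp (fun _ : ℕ => H) 2 :=
  ⟨fun n => ((τ ^ lev n : ℝ) : ℂ) • T (e n), memCol hC hT⟩

lemma colv_apply {e : ℕ → H} {τ p C : ℝ}
    (hC : ∀ (T : H →L[ℂ] H), Summable (fun n => sv T n ^ p) → ∀ s : Finset ℕ,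
      ‖colPart e τ s T‖ ≤ C * schattenNorm p T)
    (T : H →L[ℂ] H) (hT : Summable (fun n => sv T n ^ p)) (n : ℕ) :
    colv hC T hT n = ((τ ^ lev n : ℝ) : ℂ) • T (e n) := rfl

lemma norm_colv_le {e : ℕ → H} {τ p C : ℝ} (hC0 : 0 ≤ C)
    (hC : ∀ (T : H →L[ℂ] H), Summable (fun n => sv T n ^ p) → ∀ s : Finset ℕ,
      ‖colPart e τ s T‖ ≤ C * schattenNorm p T)
    (T : H →L[ℂ] H) (hT : Summable (fun n => sv T n ^ p)) :
    ‖colv hC T hT‖ ≤ C * schattenNorm p T := by
  have h0 := schattenNorm_nonneg p T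
  apply lp.norm_le_of_forall_sum_le (by norm_num) (by positivity)
  intro s
  have h1 := hC T hT s
  have h2 := norm_sq_colPart e τ s T
  have h3 : ∑ i ∈ s, ‖colv hC T hT i‖ ^ (2 : ENNReal).toReal
      = ‖colPart e τ s T‖ ^ 2 := by
    rw [h2]
    apply Finset.sum_congr rfl
    intro n _
    rw [colv_apply, norm_smul, Complex.norm_real, ENNReal.toReal_ofNat, Real.rpow_two, mul_pow,
      Real.norm_eq_abs, sq_abs]
    ring
  rw [h3, ENNReal.toReal_ofNat, Real.rpow_two]
  gcongr

/-- The coordinatewise action of an operator on `ℓ²(H)`. -/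
def ampT (T : H →L[ℂ] H) : lp (fun _ : ℕ => H) 2 →L[ℂ] lp (fun _ : ℕ => H) 2 :=
  lp.mapCLM 2 (fun _ => T) (norm_nonneg T) (fun _ => le_rfl)

lemma ampT_apply (T : H →L[ℂ] H) (x : lp (fun _ : ℕ => H) 2) (n : ℕ) : ampT T x n = T (x n) := rfl

lemma norm_ampT_le (T : H →L[ℂ] H) : ‖ampT T‖ ≤ ‖T‖ := lp.norm_mapCLM_le _ _ _ _

variable [CompleteSpace H]

lemma inner_ampT (T : H →L[ℂ] H) (x y : lp (fun _ : ℕ => H) 2) :
    ⟪x, ampT T y⟫_ℂ = ⟪ampT (ContinuousLinearMap.adjoint T) x, y⟫_ℂ := by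
  rw [lp.inner_eq_tsum, lp.inner_eq_tsum]
  congr 1
  funext n
  rw [ampT_apply, ampT_apply, ContinuousLinearMap.adjoint_inner_left]

lemma summable_adjoint {p : ℝ} {T : H →L[ℂ] H} (hT : Summable (fun n => sv T n ^ p)) :
    Summable (fun n => sv (ContinuousLinearMap.adjoint T) n ^ p) := by
  simpa only [sv_adjoint] using hT

lemma schattenNorm_adjoint (p : ℝ) (T : H →L[ℂ] H) :
    schattenNorm p (ContinuousLinearMap.adjoint T) = schattenNorm p T := by
  unfold schattenNorm
  simp only [sv_adjoint]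

/-- The amplification as a linear map on the Schatten class. -/
def ampA (p : ℝ) (hp : 1 ≤ p) :
    schatten H p hp →ₗ[ℂ] lp (fun _ : ℕ => H) 2 →L[ℂ] lp (fun _ : ℕ => H) 2 where
  toFun a := ampT (a : H →L[ℂ] H)
  map_add' a b := by
    apply ContinuousLinearMap.ext
    intro x
    ext n
    rfl
  map_smul' c a := by
    apply ContinuousLinearMap.ext
    intro x
    ext n
    rfl

/-- The weighted column map on the Schatten class. -/
def colA {e : ℕ → H} {τ p C : ℝ} (hp : 1 ≤ p)
    (hC : ∀ (T : H →L[ℂ] H), Summable (fun n => sv T n ^ p) → ∀ s : Finset ℕ,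
      ‖colPart e τ s T‖ ≤ C * schattenNorm p T) :
    schatten H p hp →ₗ[ℂ] lp (fun _ : ℕ => H) 2 where
  toFun a := colv hC (a : H →L[ℂ] H) a.2.2
  map_add' a b := by
    ext n
    change _ • ((a : H →L[ℂ] H) + (b : H →L[ℂ] H)) (e n) = _
    rw [add_apply, smul_add]
    rfl
  map_smul' c a := by
    ext n
    change ((τ ^ lev n : ℝ) : ℂ) • (c • (a : H →L[ℂ] H)) (e n)
      = c • (((τ ^ lev n : ℝ) : ℂ) • (a : H →L[ℂ] H) (e n))
    rw [smul_apply, smul_comm]

/-- The weighted row functional on the Schatten class. -/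
def rowA {e : ℕ → H} {τ p C : ℝ} (hp : 1 ≤ p)
    (hC : ∀ (T : H →L[ℂ] H), Summable (fun n => sv T n ^ p) → ∀ s : Finset ℕ,
      ‖colPart e τ s T‖ ≤ C * schattenNorm p T) :
    schatten H p hp →ₗ[ℂ] lp (fun _ : ℕ => H) 2 →L[ℂ] ℂ where
  toFun a := innerSL ℂ (colv hC (ContinuousLinearMap.adjoint (a : H →L[ℂ] H))
    (summable_adjoint a.2.2))
  map_add' a b := by
    rw [← map_add]
    congr 1
    ext n
    change _ • (ContinuousLinearMap.adjoint ((a : H →L[ℂ] H) + (b : H →L[ℂ] H))) (e n) = _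
    rw [map_add, add_apply, smul_add]
    rfl
  map_smul' c a := by
    have h1 : colv hC (ContinuousLinearMap.adjoint ((c • a : schatten H p hp) : H →L[ℂ] H))
        (summable_adjoint (c • a : schatten H p hp).2.2)
        = (starRingEnd ℂ c) • colv hC (ContinuousLinearMap.adjoint (a : H →L[ℂ] H))
          (summable_adjoint a.2.2) := by
      ext n
      change ((τ ^ lev n : ℝ) : ℂ) • (ContinuousLinearMap.adjoint (c • (a : H →L[ℂ] H))) (e n)
        = (starRingEnd ℂ c) •
          (((τ ^ lev n : ℝ) : ℂ) • (ContinuousLinearMap.adjoint (a : H →L[ℂ] H)) (e n))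
      rw [map_smulₛₗ, smul_apply, smul_comm]
    rw [h1, map_smulₛₗ]
    simp

end maps

end Pool.Agent.H79.Schatten
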