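import Mathlib
import Pool.Agent.H79.SchattenNeg

set_option autoImplicit false

open Filter Topology
open scoped InnerProductSpace ENNReal

noncomputable section

namespace Pool.Agent.H79.Schatten

open Pool.Agent.H79.SemiAm

/-- Choice of the parameter `κ`. -/
lemma exists_kappa {p : ℝ} (hp : 1 < p) :
    ∃ κ : ℝ, 1 < κ ∧ κ ≤ 2 ∧ 2 * (1 / κ) ^ p < 1 ∧ √κ * 2 ^ (-(1 / p)) < 1 := by
  set q : ℝ := 2 ^ (1 / p) with hq
  have hp0 : 0 < p := by linarith
  have hq1 : 1 < q := Real.one_lt_rpow (by norm_num) (by positivity)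
  have hq2 : q < 2 := by
    calc q < 2 ^ (1 : ℝ) := by
          apply Real.rpow_lt_rpow_of_exponent_lt (by norm_num)
          rw [div_lt_one hp0]
          exact hp
      _ = 2 := Real.rpow_one 2
  have hqq : q < q ^ 2 := by nlinarith
  refine ⟨min 2 ((q + q ^ 2) / 2), ?_, min_le_left _ _, ?_, ?_⟩
  · apply lt_min (by norm_num)
    linarith
  · have h1 : q < min 2 ((q + q ^ 2) / 2) := lt_min hq2 (by linarith)
    have h2 : (1 / min 2 ((q + q ^ 2) / 2)) ^ p < (1 / q) ^ p := by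
      apply Real.rpow_lt_rpow
      · have : 0 < min 2 ((q + q ^ 2) / 2) := by linarith
        positivity
      · exact one_div_lt_one_div_of_lt (by linarith) h1
      · exact hp0
    have h3 : (1 / q) ^ p = 1 / 2 := by
      rw [Real.div_rpow (by norm_num) (by linarith), Real.one_rpow, hq, ← Real.rpow_mul (by norm_num),
        one_div_mul_cancel hp0.ne', Real.rpow_one]
    rw [h3] at h2
    linarith
  · have h1 : min 2 ((q + q ^ 2) / 2) < q ^ 2 := lt_of_le_of_lt (min_le_right _ _) (by linarith)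
    have h2 : √(min 2 ((q + q ^ 2) / 2)) < q := by
      rw [Real.sqrt_lt' (by linarith)]
      exact h1
    rw [Real.rpow_neg (by norm_num), ← div_eq_mul_inv, div_lt_one (by positivity)]
    exact h2

lemma phi0_inj : Function.Injective (fun n : ℕ => 2 * n + 1) := by
  intro a b h
  simp only at h
  omega

lemma phi1_inj : Function.Injective (fun n : ℕ => 2 * n + 2) := by
  intro a b h
  simp only at h
  omega

lemma id_inj : Function.Injective (fun n : ℕ => n) := fun _ _ h => h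

lemma tsum_tree {g : ℕ → ℂ} (hg : Summable g) :
    ∑' n, g n = g 0 + (∑' n, g (2 * n + 1) + ∑' n, g (2 * n + 2)) := by
  rw [hg.tsum_eq_zero_add]
  congr 1
  have h1 : Summable (fun n => g (n + 1)) := (summable_nat_add_iff 1).mpr hg
  have h2 : Summable (fun n => g (2 * n + 1)) := hg.comp_injective phi0_inj
  have h3 : Summable (fun n => g (2 * n + 1 + 1)) := hg.comp_injective phi1_inj
  exact (tsum_even_add_odd (f := fun n => g (n + 1)) h2 h3).symm

/-- Non-amenability statement: for `p > 1` the Schatten class `S_p` is not approximately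
semi-amenable. -/
theorem not_asa {H : Type} [NormedAddCommGroup H] [InnerProductSpace ℂ H] [CompleteSpace H]
    (b : HilbertBasis ℕ ℂ H) {p : ℝ} (hp1 : 1 ≤ p) (hp : 1 < p) :
    ¬ ApproxSemiAmenable (schatten H p hp1) (fun a => schattenNorm p (a : H →L[ℂ] H)) := by
  obtain ⟨κ, hκ1, hκ2, hκp, hκq⟩ := exists_kappa hp
  have hp0 : 0 < p := by linarith
  have hκ0 : 0 < κ := by linarith
  set ω : ℝ := 1 / κ with hω
  have hω0 : 0 < ω := by positivity
  have hω1 : ω ≤ 1 := by rw [hω, div_le_one hκ0]; linarith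
  set τ : ℝ := √(κ / 2) with hτ
  have hτ0 : 0 < τ := Real.sqrt_pos.mpr (by positivity)
  have hτsq : τ ^ 2 = κ / 2 := Real.sq_sqrt (by positivity)
  have hτω : τ ^ 2 * ω = 1 / 2 := by rw [hτsq, hω]; field_simp
  have he := b.orthonormal
  obtain ⟨C, hC0, hC⟩ := colPart_bound_schatten he hp0 (τ := τ) (by rw [hτsq]; linarith)
    (by rw [hτsq]; linarith) (by rw [hτsq, mul_div_cancel₀ κ (by norm_num : (2 : ℝ) ≠ 0)]; exact hκq)
  -- weights
  have hwa : Antitone (fun n => ω ^ lev n) := antitone_weight hω0.le hω1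
  have hw0 : ∀ n, 0 ≤ ω ^ lev n := fun n => by positivity
  have hw : ∀ n, |ω ^ lev n| ≤ 1 := fun n => by
    rw [abs_of_nonneg (hw0 n)]
    exact pow_le_one₀ hω0.le hω1
  have hsum : Summable (fun n => (ω ^ lev n) ^ p) := by
    have h1 : (fun n => (ω ^ lev n) ^ p) = fun n => (ω ^ p) ^ lev n := by
      funext n
      rw [← Real.rpow_natCast, ← Real.rpow_natCast, ← Real.rpow_mul hω0.le, ← Real.rpow_mul hω0.le,
        mul_comm]
    rw [h1]
    exact summable_weight (Real.rpow_nonneg hω0.le _) hκp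
  have hmem : ∀ (φ : ℕ → ℕ) (hφ : Function.Injective φ),
      wop b φ hφ (fun n => ω ^ lev n) 1 zero_le_one hw ∈ schatten H p hp1 := by
    intro φ hφ
    have h1 : Summable (fun n => sv (wop b φ hφ (fun n => ω ^ lev n) 1 zero_le_one hw) n ^ p) := by
      refine Summable.of_nonneg_of_le (fun n => Real.rpow_nonneg (sv_nonneg _ _) _) (fun n => ?_) hsum
      exact Real.rpow_le_rpow (sv_nonneg _ _) (sv_wop_le b φ hφ _ hw0 hwa 1 zero_le_one hw n) hp0.le
    exact ⟨isCompact_of_summable hp0 h1, h1⟩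
  let a0 : schatten H p hp1 := ⟨_, hmem _ phi0_inj⟩
  let a1 : schatten H p hp1 := ⟨_, hmem _ phi1_inj⟩
  let a2 : schatten H p hp1 := ⟨_, hmem _ id_inj⟩
  let R0 : lp (fun _ : ℕ => H) 2 →L[ℂ] lp (fun _ : ℕ => H) 2 := restr _ phi0_inj
  let R1 : lp (fun _ : ℕ => H) 2 →L[ℂ] lp (fun _ : ℕ => H) 2 := restr _ phi1_inj
  let M : Fin 3 → lp (fun _ : ℕ => H) 2 →L[ℂ] lp (fun _ : ℕ => H) 2 :=
    ![((1 / τ : ℝ) : ℂ) • ContinuousLinearMap.adjoint R0,
      ((1 / τ : ℝ) : ℂ) • ContinuousLinearMap.adjoint R1,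
      (-2 : ℂ) • ContinuousLinearMap.id ℂ _]
  have hcomm : ∀ (φ : ℕ → ℕ) (hφ : Function.Injective φ) (T : H →L[ℂ] H)
      (x : lp (fun _ : ℕ => H) 2),
      ContinuousLinearMap.adjoint (restr φ hφ : lp (fun _ : ℕ => H) 2 →L[ℂ] lp (fun _ : ℕ => H) 2)
        (ampT T x) = ampT T (ContinuousLinearMap.adjoint (restr φ hφ) x) := by
    intro φ hφ T x
    apply ext_inner_left ℂ
    intro y
    rw [ContinuousLinearMap.adjoint_inner_right, inner_ampT, inner_ampT,
      ContinuousLinearMap.adjoint_inner_right]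
    rfl
  refine not_asa_of_data (fun a : schatten H p hp1 => schattenNorm p (a : H →L[ℂ] H))
    (ampA p hp1) (fun a b x => rfl) (colA hp1 hC) ?_ (rowA hp1 hC) ?_ M ?_ (C + 1) ?_
    ![a0, a1, a2] (lp.single 2 0 ((-2 : ℂ) • b 0)) ?_ ?_ ?_
  · -- col (a b) = amp a (col b)
    intro x y
    ext n
    change ((τ ^ lev n : ℝ) : ℂ) • ((x : H →L[ℂ] H) ((y : H →L[ℂ] H) (b n)))
      = (x : H →L[ℂ] H) (((τ ^ lev n : ℝ) : ℂ) • (y : H →L[ℂ] H) (b n))
    rw [map_smul]
  · -- row (a b) x = row a (amp b x)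
    intro x y z
    change ⟪colv hC (ContinuousLinearMap.adjoint ((x * y : schatten H p hp1) : H →L[ℂ] H)) _, z⟫_ℂ
      = ⟪colv hC (ContinuousLinearMap.adjoint (x : H →L[ℂ] H)) _, ampT (y : H →L[ℂ] H) z⟫_ℂ
    rw [inner_ampT]
    congr 1
    ext n
    change ((τ ^ lev n : ℝ) : ℂ) •
        (ContinuousLinearMap.adjoint ((x : H →L[ℂ] H) * (y : H →L[ℂ] H))) (b n)
      = ContinuousLinearMap.adjoint (y : H →L[ℂ] H)
        (((τ ^ lev n : ℝ) : ℂ) • ContinuousLinearMap.adjoint (x : H →L[ℂ] H) (b n))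
    rw [map_smul, ContinuousLinearMap.mul_def, ContinuousLinearMap.adjoint_comp]
    rfl
  · intro j a x
    fin_cases j
    · change (((1 / τ : ℝ) : ℂ) • ContinuousLinearMap.adjoint R0) (ampT (a : H →L[ℂ] H) x)
        = ampT (a : H →L[ℂ] H) ((((1 / τ : ℝ) : ℂ) • ContinuousLinearMap.adjoint R0) x)
      rw [smul_apply, smul_apply, map_smul, hcomm]
    · change (((1 / τ : ℝ) : ℂ) • ContinuousLinearMap.adjoint R1) (ampT (a : H →L[ℂ] H) x)
        = ampT (a : H →L[ℂ] H) ((((1 / τ : ℝ) : ℂ) • ContinuousLinearMap.adjoint R1) x)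
      rw [smul_apply, smul_apply, map_smul, hcomm]
    · change ((-2 : ℂ) • ContinuousLinearMap.id ℂ _) (ampT (a : H →L[ℂ] H) x)
        = ampT (a : H →L[ℂ] H) (((-2 : ℂ) • ContinuousLinearMap.id ℂ _) x)
      rw [smul_apply, smul_apply, map_smul]
      rfl
  · intro a
    have h0 := schattenNorm_nonneg p (a : H →L[ℂ] H)
    refine ⟨?_, ?_, ?_⟩
    · refine (norm_ampT_le _).trans ((norm_le_schattenNorm hp0 a.2.2).trans ?_)
      nlinarith
    · refine (norm_colv_le hC0 hC _ a.2.2).trans ?_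
      nlinarith
    · change ‖innerSL ℂ (colv hC (ContinuousLinearMap.adjoint (a : H →L[ℂ] H)) _)‖ ≤ _
      rw [innerSL_apply_norm]
      refine (norm_colv_le hC0 hC _ _).trans ?_
      rw [schattenNorm_adjoint]
      nlinarith
  · -- the relation for the rows
    intro x
    have key : ∀ (φ : ℕ → ℕ) (hφ : Function.Injective φ), (∀ n, lev (φ n) = lev n + 1) →
        rowA hp1 hC (⟨_, hmem φ hφ⟩ : schatten H p hp1)
          ((((1 / τ : ℝ) : ℂ) • ContinuousLinearMap.adjoint (restr φ hφ)) x)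
        = rowA hp1 hC a2 x := by
      intro φ hφ hlev
      rw [smul_apply, map_smul]
      change ((1 / τ : ℝ) : ℂ) • ⟪colv hC (ContinuousLinearMap.adjoint
        (wop b φ hφ (fun n => ω ^ lev n) 1 zero_le_one hw)) _,
          ContinuousLinearMap.adjoint (restr φ hφ) x⟫_ℂ
        = ⟪colv hC (ContinuousLinearMap.adjoint
          (wop b (fun n => n) id_inj (fun n => ω ^ lev n) 1 zero_le_one hw)) _, x⟫_ℂ
      rw [ContinuousLinearMap.adjoint_inner_right, smul_eq_mul]
      have h1 : restr φ hφ (colv hC (ContinuousLinearMap.adjoint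
        (wop b φ hφ (fun n => ω ^ lev n) 1 zero_le_one hw)) (summable_adjoint (hmem φ hφ).2))
        = ((τ : ℝ) : ℂ) • colv hC (ContinuousLinearMap.adjoint
          (wop b (fun n => n) id_inj (fun n => ω ^ lev n) 1 zero_le_one hw))
            (summable_adjoint (hmem _ id_inj).2) := by
        ext n
        change ((τ ^ lev (φ n) : ℝ) : ℂ) • (ContinuousLinearMap.adjoint
            (wop b φ hφ (fun n => ω ^ lev n) 1 zero_le_one hw)) (b (φ n))
          = ((τ : ℝ) : ℂ) • (((τ ^ lev n : ℝ) : ℂ) • (ContinuousLinearMap.adjoint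
            (wop b (fun n => n) id_inj (fun n => ω ^ lev n) 1 zero_le_one hw)) (b n))
        rw [adjoint_wop]
        have h2 := adjoint_wop b (fun n => n) id_inj (fun n => ω ^ lev n) 1 zero_le_one hw n
        rw [h2, hlev, smul_smul, smul_smul, smul_smul]
        congr 1
        push_cast
        ring
      rw [h1, inner_smul_left, Complex.conj_ofReal, ← mul_assoc, ← Complex.ofReal_mul,
        one_div_mul_cancel hτ0.ne', Complex.ofReal_one, one_mul]
    rw [Fin.sum_univ_three]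
    have k0 : rowA hp1 hC (![a0, a1, a2] 0) (M 0 x) = rowA hp1 hC a2 x := key _ phi0_inj lev_odd
    have k1 : rowA hp1 hC (![a0, a1, a2] 1) (M 1 x) = rowA hp1 hC a2 x := key _ phi1_inj lev_even
    have k2 : rowA hp1 hC (![a0, a1, a2] 2) (M 2 x) = -2 * rowA hp1 hC a2 x := by
      change rowA hp1 hC a2 ((-2 : ℂ) • x) = _
      rw [map_smul, smul_eq_mul]
    rw [k0, k1, k2]
    ring
  · -- the relation for the columns
    apply ext_inner_left ℂ
    intro y
    set g : ℕ → ℂ := fun n => ⟪y n, (((τ * ω) ^ lev n : ℝ) : ℂ) • b n⟫_ℂ with hg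
    have hcol2 : ∀ n, colA hp1 hC a2 n = (((τ * ω) ^ lev n : ℝ) : ℂ) • b n := by
      intro n
      change ((τ ^ lev n : ℝ) : ℂ) • (wop b (fun n => n) id_inj (fun n => ω ^ lev n) 1 zero_le_one hw)
        (b n) = _
      rw [wop_basis, smul_smul, ← Complex.ofReal_mul, mul_pow]
    have hgs : HasSum g ⟪y, colA hp1 hC a2⟫_ℂ := by
      have := lp.hasSum_inner (𝕜 := ℂ) y (colA hp1 hC a2)
      simpa only [hcol2] using this
    have key : ∀ (φ : ℕ → ℕ) (hφ : Function.Injective φ), (∀ n, lev (φ n) = lev n + 1) →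
        ⟪y, (((1 / τ : ℝ) : ℂ) • ContinuousLinearMap.adjoint (restr φ hφ))
          (colA hp1 hC (⟨_, hmem φ hφ⟩ : schatten H p hp1))⟫_ℂ
        = 2 * ∑' n, g (φ n) := by
      intro φ hφ hlev
      rw [smul_apply, inner_smul_right, ContinuousLinearMap.adjoint_inner_right, lp.inner_eq_tsum,
        ← tsum_mul_left, ← tsum_mul_left]
      congr 1
      funext n
      have h1 : colA hp1 hC (⟨_, hmem φ hφ⟩ : schatten H p hp1) n
          = (((τ * ω) ^ lev n : ℝ) : ℂ) • b (φ n) := by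
        change ((τ ^ lev n : ℝ) : ℂ) • (wop b φ hφ (fun n => ω ^ lev n) 1 zero_le_one hw) (b n) = _
        rw [wop_basis, smul_smul, ← Complex.ofReal_mul, mul_pow]
      rw [h1, restr_apply, hg]
      simp only [inner_smul_right, hlev]
      rw [← mul_assoc, ← mul_assoc, ← Complex.ofReal_mul,
        show (2 : ℂ) = ((2 : ℝ) : ℂ) by norm_num, ← Complex.ofReal_mul]
      congr 2
      have h2 : 2 * (τ * ω) = 1 / τ := by
        field_simp
        nlinarith [hτω]
      rw [pow_succ, ← h2]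
      ring
    rw [Fin.sum_univ_three, inner_add_right, inner_add_right]
    have k0 : ⟪y, M 0 (colA hp1 hC (![a0, a1, a2] 0))⟫_ℂ = 2 * ∑' n, g (2 * n + 1) :=
      key _ phi0_inj lev_odd
    have k1 : ⟪y, M 1 (colA hp1 hC (![a0, a1, a2] 1))⟫_ℂ = 2 * ∑' n, g (2 * n + 2) :=
      key _ phi1_inj lev_even
    have k2 : ⟪y, M 2 (colA hp1 hC (![a0, a1, a2] 2))⟫_ℂ = -2 * ∑' n, g n := by
      change ⟪y, (-2 : ℂ) • colA hp1 hC a2⟫_ℂ = _
      rw [inner_smul_right, hgs.tsum_eq]
    rw [k0, k1, k2, tsum_tree hgs.summable]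
    have k3 : ampA p hp1 (![a0, a1, a2] 2) (lp.single 2 0 ((-2 : ℂ) • b 0))
        = lp.single 2 0 ((-2 : ℂ) • b 0) := by
      ext n
      change (wop b (fun n => n) id_inj (fun n => ω ^ lev n) 1 zero_le_one hw)
        ((lp.single 2 0 ((-2 : ℂ) • b 0) : lp (fun _ : ℕ => H) 2) n) = _
      by_cases hn : n = 0
      · subst hn
        rw [lp.single_apply_self, map_smul, wop_basis, lev_zero]
        simp
      · rw [lp.single_apply_ne _ _ _ hn, map_zero]
    rw [k3, lp.inner_single_right, inner_smul_right, hg]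
    simp only [lev_zero, pow_zero, Complex.ofReal_one, one_smul]
    ring
  · change ⟪colv hC (ContinuousLinearMap.adjoint
      (wop b (fun n => n) id_inj (fun n => ω ^ lev n) 1 zero_le_one hw)) _,
        lp.single 2 0 ((-2 : ℂ) • b 0)⟫_ℂ ≠ 0
    rw [lp.inner_single_right, colv_apply]
    have h2 := adjoint_wop b (fun n => n) id_inj (fun n => ω ^ lev n) 1 zero_le_one hw 0
    have h3 : ⟪b 0, b 0⟫_ℂ = 1 := by
      have := (orthonormal_iff_ite.mp b.orthonormal) 0 0
      simpa using this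
    rw [h2, lev_zero, inner_smul_left, inner_smul_right, inner_smul_left, h3]
    simp

end Pool.Agent.H79.Schatten
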