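import Mathlib
import Pool.Agent.H79.SchattenRank
import Pool.Agent.H79.SchattenCol
import Pool.Agent.H79.SemiAmenable

set_option autoImplicit false

open Filter Topology
open scoped InnerProductSpace ENNReal

noncomputable section

namespace Pool.Agent.H79.Schatten

variable {H : Type*} [NormedAddCommGroup H] [InnerProductSpace ℂ H]

/-- The rank one operator `v ↦ ⟪y, v⟫ • x`. -/
def ro (x y : H) : H →L[ℂ] H := (innerSL ℂ y).smulRight x

lemma ro_apply (x y v : H) : ro x y v = ⟪y, v⟫_ℂ • x := rfl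

lemma ro_mem (x y : H) : ro x y ∈ rankLE H 1 := by
  unfold rankLE
  simp only [Set.mem_ofPred_eq, Nat.cast_one]
  have h3 : LinearMap.range ((ro x y : H →L[ℂ] H) : H →ₗ[ℂ] H) ≤ Submodule.span ℂ {x} := by
    rintro _ ⟨v, rfl⟩
    exact Submodule.mem_span_singleton.mpr ⟨_, rfl⟩
  refine (Submodule.rank_mono h3).trans ?_
  exact (rank_span_le _).trans (by simp)

lemma sv_of_mem {F : H →L[ℂ] H} {m n : ℕ} (hF : F ∈ rankLE H m) (hmn : m ≤ n) : sv F n = 0 := by
  apply le_antisymm _ (sv_nonneg _ _)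
  have := sv_le_of_mem (T := F) (rankLE_mono hmn hF)
  simpa using this

lemma summable_of_mem {F : H →L[ℂ] H} {m : ℕ} (hF : F ∈ rankLE H m) : Summable (sv F) := by
  apply summable_of_ne_finset_zero (s := Finset.range m)
  intro n hn
  exact sv_of_mem hF (by simpa using hn)

lemma norm_ro_le (x y : H) : ‖ro x y‖ ≤ ‖x‖ * ‖y‖ := by
  refine ContinuousLinearMap.opNorm_le_bound _ (by positivity) (fun v => ?_)
  rw [ro_apply, norm_smul]
  calc ‖⟪y, v⟫_ℂ‖ * ‖x‖ ≤ (‖y‖ * ‖v‖) * ‖x‖ := by gcongr; exact norm_inner_le_norm _ _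
    _ = ‖x‖ * ‖y‖ * ‖v‖ := by ring

/-- The trace norm, without the trivial exponent. -/
lemma schattenNorm_one (T : H →L[ℂ] H) : schattenNorm 1 T = ∑' n, sv T n := by
  unfold schattenNorm
  simp

lemma schattenNorm_ro_le (x y : H) : schattenNorm 1 (ro x y) ≤ ‖x‖ * ‖y‖ := by
  rw [schattenNorm_one, tsum_eq_single 0]
  · rw [sv_zero]
    exact norm_ro_le x y
  · intro n hn
    exact sv_of_mem (ro_mem x y) (Nat.one_le_iff_ne_zero.mpr hn)

lemma summable_pow_one {T : H →L[ℂ] H} : Summable (fun n => sv T n ^ (1 : ℝ)) ↔ Summable (sv T) := by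
  simp

section phi

variable {Y : Type*} [NormedAddCommGroup Y] [NormedSpace ℂ Y]

/-- A bounded sesquilinear map (linear in the first, conjugate-linear in the second variable). -/
structure Sesq (B : H → H → Y) (K : ℝ) : Prop where
  add_left : ∀ x x' y, B (x + x') y = B x y + B x' y
  smul_left : ∀ (c : ℂ) x y, B (c • x) y = c • B x y
  add_right : ∀ x y y', B x (y + y') = B x y + B x y'
  smul_right : ∀ (c : ℂ) x y, B x (c • y) = (starRingEnd ℂ c) • B x y
  bound : ∀ x y, ‖B x y‖ ≤ K * (‖x‖ * ‖y‖)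

variable {B : H → H → Y} {K : ℝ}

lemma Sesq.zero_left (hB : Sesq B K) (y : H) : B 0 y = 0 := by
  have := hB.smul_left 0 0 y
  simpa using this

lemma Sesq.zero_right (hB : Sesq B K) (x : H) : B x 0 = 0 := by
  have := hB.smul_right 0 x 0
  simpa using this

lemma Sesq.sum_left (hB : Sesq B K) {ι : Type*} (s : Finset ι) (f : ι → H) (y : H) :
    B (∑ i ∈ s, f i) y = ∑ i ∈ s, B (f i) y := by
  classical
  induction s using Finset.induction_on with
  | empty => simp [hB.zero_left]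
  | insert a s ha ih => rw [Finset.sum_insert ha, Finset.sum_insert ha, hB.add_left, ih]

lemma Sesq.sum_right (hB : Sesq B K) {ι : Type*} (s : Finset ι) (f : ι → H) (x : H) :
    B x (∑ i ∈ s, f i) = ∑ i ∈ s, B x (f i) := by
  classical
  induction s using Finset.induction_on with
  | empty => simp [hB.zero_right]
  | insert a s ha ih => rw [Finset.sum_insert ha, Finset.sum_insert ha, hB.add_right, ih]

lemma Sesq.sub_left (hB : Sesq B K) (x x' y : H) : B (x - x') y = B x y - B x' y := by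
  have h1 : x - x' = x + (-1 : ℂ) • x' := by rw [neg_one_smul, sub_eq_add_neg]
  rw [h1, hB.add_left, hB.smul_left, neg_one_smul, sub_eq_add_neg]

lemma Sesq.sub_right (hB : Sesq B K) (x y y' : H) : B x (y - y') = B x y - B x y' := by
  have h1 : y - y' = y + (-1 : ℂ) • y' := by rw [neg_one_smul, sub_eq_add_neg]
  rw [h1, hB.add_right, hB.smul_right, map_neg, map_one, neg_one_smul, sub_eq_add_neg]

variable [CompleteSpace H]

/-- The defect `Φ_n(T) = ∑_{i<n} B(T e_i, e_i) - B(e_i, T* e_i)`. -/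
def Phi (B : H → H → Y) (e : ℕ → H) (n : ℕ) (T : H →L[ℂ] H) : Y :=
  ∑ i ∈ Finset.range n, (B (T (e i)) (e i) - B (e i) (ContinuousLinearMap.adjoint T (e i)))

lemma Phi_add (hB : Sesq B K) (e : ℕ → H) (n : ℕ) (S T : H →L[ℂ] H) :
    Phi B e n (S + T) = Phi B e n S + Phi B e n T := by
  unfold Phi
  rw [← Finset.sum_add_distrib]
  apply Finset.sum_congr rfl
  intro i _
  rw [map_add, add_apply, add_apply, hB.add_left, hB.add_right]
  abel

lemma Phi_sum (hB : Sesq B K) (e : ℕ → H) (n : ℕ) {ι : Type*} (s : Finset ι)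
    (T : ι → H →L[ℂ] H) : Phi B e n (∑ j ∈ s, T j) = ∑ j ∈ s, Phi B e n (T j) := by
  classical
  induction s using Finset.induction_on with
  | empty => simp [Phi, hB.zero_left, hB.zero_right]
  | insert a s ha ih => rw [Finset.sum_insert ha, Finset.sum_insert ha, Phi_add hB, ih]

lemma norm_Phi_le (hB : Sesq B K) (hK : 0 ≤ K) {e : ℕ → H} (he : Orthonormal ℂ e) (n : ℕ)
    (T : H →L[ℂ] H) : ‖Phi B e n T‖ ≤ n * (2 * K * ‖T‖) := by
  unfold Phi
  calc ‖∑ i ∈ Finset.range n, (B (T (e i)) (e i) - B (e i) (ContinuousLinearMap.adjoint T (e i)))‖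
      ≤ ∑ _i ∈ Finset.range n, 2 * K * ‖T‖ := by
        apply norm_sum_le_of_le
        intro i _
        have h1 : ‖T (e i)‖ ≤ ‖T‖ := by
          have := T.le_opNorm (e i)
          rwa [he.1 i, mul_one] at this
        have h2 : ‖ContinuousLinearMap.adjoint T (e i)‖ ≤ ‖T‖ := by
          have := (ContinuousLinearMap.adjoint T).le_opNorm (e i)
          rwa [he.1 i, mul_one, LinearIsometryEquiv.norm_map] at this
        calc ‖B (T (e i)) (e i) - B (e i) (ContinuousLinearMap.adjoint T (e i))‖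
            ≤ ‖B (T (e i)) (e i)‖ + ‖B (e i) (ContinuousLinearMap.adjoint T (e i))‖ :=
              norm_sub_le _ _
          _ ≤ K * (‖T (e i)‖ * ‖e i‖) + K * (‖e i‖ * ‖ContinuousLinearMap.adjoint T (e i)‖) :=
              add_le_add (hB.bound _ _) (hB.bound _ _)
          _ ≤ K * (‖T‖ * 1) + K * (1 * ‖T‖) := by
              rw [he.1 i]
              gcongr
          _ = 2 * K * ‖T‖ := by ring
    _ = n * (2 * K * ‖T‖) := by simp

/-- The projection onto the span of `e 0, ..., e (n - 1)`. -/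
def Pn (e : ℕ → H) (n : ℕ) (y : H) : H := ∑ i ∈ Finset.range n, ⟪e i, y⟫_ℂ • e i

omit [CompleteSpace H] in
lemma norm_Pn_le {e : ℕ → H} (he : Orthonormal ℂ e) (n : ℕ) (y : H) : ‖Pn e n y‖ ≤ ‖y‖ := by
  apply (sq_le_sq₀ (norm_nonneg _) (norm_nonneg _)).mp
  have h5 := he.inner_sum (fun j => ⟪e j, y⟫_ℂ) (fun j => ⟪e j, y⟫_ℂ) (Finset.range n)
  rw [inner_self_eq_norm_sq_to_K] at h5
  have h6 : ((‖Pn e n y‖ ^ 2 : ℝ) : ℂ) = ((∑ j ∈ Finset.range n, ‖⟪e j, y⟫_ℂ‖ ^ 2 : ℝ) : ℂ) := by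
    push_cast
    refine h5.trans ?_
    apply Finset.sum_congr rfl
    intro j _
    rw [RCLike.conj_mul]
    rfl
  have h7 : ‖Pn e n y‖ ^ 2 = ∑ j ∈ Finset.range n, ‖⟪e j, y⟫_ℂ‖ ^ 2 := by exact_mod_cast h6
  rw [h7]
  exact he.sum_inner_products_le y

lemma adjoint_ro (x y : H) : ContinuousLinearMap.adjoint (ro x y) = ro y x := by
  ext v
  apply ext_inner_left ℂ
  intro w
  rw [ContinuousLinearMap.adjoint_inner_right, ro_apply, ro_apply, inner_smul_left,
    inner_smul_right, inner_conj_symm]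
  ring

lemma Phi_ro (hB : Sesq B K) (e : ℕ → H) (n : ℕ) (x y : H) :
    Phi B e n (ro x y) = B x (Pn e n y) - B (Pn e n x) y := by
  unfold Phi Pn
  rw [adjoint_ro, Finset.sum_sub_distrib, hB.sum_right, hB.sum_left]
  congr 1
  · apply Finset.sum_congr rfl
    intro i _
    rw [ro_apply, hB.smul_left, hB.smul_right, inner_conj_symm]
  · apply Finset.sum_congr rfl
    intro i _
    rw [ro_apply, hB.smul_right, hB.smul_left, inner_conj_symm]

lemma norm_Phi_ro_le (hB : Sesq B K) (hK : 0 ≤ K) {e : ℕ → H} (he : Orthonormal ℂ e) (n : ℕ)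
    (x y : H) : ‖Phi B e n (ro x y)‖ ≤ 2 * K * (‖x‖ * ‖y‖) := by
  rw [Phi_ro hB]
  calc ‖B x (Pn e n y) - B (Pn e n x) y‖ ≤ ‖B x (Pn e n y)‖ + ‖B (Pn e n x) y‖ := norm_sub_le _ _
    _ ≤ K * (‖x‖ * ‖Pn e n y‖) + K * (‖Pn e n x‖ * ‖y‖) := add_le_add (hB.bound _ _) (hB.bound _ _)
    _ ≤ K * (‖x‖ * ‖y‖) + K * (‖x‖ * ‖y‖) := by
        have h1 := norm_Pn_le he n x
        have h2 := norm_Pn_le he n y
        gcongr
    _ = _ := by ring

lemma rep_ro {G : H →L[ℂ] H} {n : ℕ} (hG : G ∈ rankLE H n) :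
    ∃ m ≤ n, ∃ u w : Fin m → H, (∀ i, ‖u i‖ = 1) ∧ (∀ i, ‖w i‖ ≤ ‖G‖) ∧
      G = ∑ i, ro (u i) (w i) := by
  obtain ⟨m, hm, u, w, hu, hw, hrep⟩ := rep_of_rankLE hG
  refine ⟨m, hm, u, w, hu.1, hw, ?_⟩
  ext x
  rw [hrep x, sum_apply]
  rfl

lemma norm_Phi_rank_le (hB : Sesq B K) (hK : 0 ≤ K) {e : ℕ → H} (he : Orthonormal ℂ e) (n : ℕ)
    {G : H →L[ℂ] H} {r : ℕ} (hG : G ∈ rankLE H r) : ‖Phi B e n G‖ ≤ 2 * K * (r * ‖G‖) := by
  obtain ⟨m, hm, u, w, hu, hw, hrep⟩ := rep_ro hG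
  have h1 : Phi B e n G = ∑ i, Phi B e n (ro (u i) (w i)) := by
    conv_lhs => rw [hrep]
    rw [Phi_sum hB]
  rw [h1]
  calc ‖∑ i, Phi B e n (ro (u i) (w i))‖ ≤ ∑ _i : Fin m, 2 * K * ‖G‖ := by
        apply norm_sum_le_of_le
        intro i _
        refine (norm_Phi_ro_le hB hK he n _ _).trans ?_
        rw [hu i, one_mul]
        have := hw i
        gcongr
    _ = m * (2 * K * ‖G‖) := by simp
    _ ≤ r * (2 * K * ‖G‖) := by gcongr
    _ = _ := by ring

omit [CompleteSpace H] in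
lemma tendsto_Pn (b : HilbertBasis ℕ ℂ H) (y : H) :
    Tendsto (fun n => Pn b n y) atTop (𝓝 y) := by
  have h1 := (b.hasSum_repr y).tendsto_sum_nat
  simp only [b.repr_apply_apply] at h1
  exact h1

lemma tendsto_Phi_ro (hB : Sesq B K) (b : HilbertBasis ℕ ℂ H) (x y : H) :
    Tendsto (fun n => Phi B b n (ro x y)) atTop (𝓝 0) := by
  have h1 : ∀ n, Phi B b n (ro x y) = B (x - Pn b n x) y - B x (y - Pn b n y) := by
    intro n
    rw [Phi_ro hB, hB.sub_left, hB.sub_right]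
    abel
  have h2 : Tendsto (fun n => K * (‖x - Pn b n x‖ * ‖y‖) + K * (‖x‖ * ‖y - Pn b n y‖)) atTop
      (𝓝 (K * (‖x - x‖ * ‖y‖) + K * (‖x‖ * ‖y - y‖))) := by
    apply Tendsto.add
    · apply Tendsto.const_mul
      apply Tendsto.mul_const
      exact (tendsto_const_nhds.sub (tendsto_Pn b x)).norm
    · apply Tendsto.const_mul
      apply Tendsto.const_mul
      exact (tendsto_const_nhds.sub (tendsto_Pn b y)).norm
  simp only [sub_self, norm_zero, zero_mul, mul_zero, add_zero] at h2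
  refine squeeze_zero_norm (fun n => ?_) h2
  rw [h1]
  exact (norm_sub_le _ _).trans (add_le_add (hB.bound _ _) (hB.bound _ _))

lemma tendsto_Phi_rank (hB : Sesq B K) (b : HilbertBasis ℕ ℂ H)
    {G : H →L[ℂ] H} {r : ℕ} (hG : G ∈ rankLE H r) :
    Tendsto (fun n => Phi B b n G) atTop (𝓝 0) := by
  obtain ⟨m, hm, u, w, hu, hw, hrep⟩ := rep_ro hG
  have h1 : ∀ n, Phi B b n G = ∑ i, Phi B b n (ro (u i) (w i)) := by
    intro n
    conv_lhs => rw [hrep]
    rw [Phi_sum hB]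
  simp only [h1]
  have h2 := tendsto_finsetSum (Finset.univ : Finset (Fin m))
    (fun i _ => tendsto_Phi_ro hB b (u i) (w i))
  simpa using h2

end phi

end Pool.Agent.H79.Schatten
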