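import Mathlib
import Pool.Agent.H79.SchattenPos

set_option autoImplicit false

open Filter Topology
open scoped InnerProductSpace ENNReal

noncomputable section

namespace Pool.Agent.H79.Schatten

variable {H : Type*} [NormedAddCommGroup H] [InnerProductSpace ℂ H]

/-- Dyadic finite rank approximants of a trace class operator. -/
lemma exists_dyadic {T : H →L[ℂ] H} (hT : Summable (sv T)) :
    ∃ F : ℕ → H →L[ℂ] H, (∀ k, F k ∈ rankLE H (2 ^ k)) ∧
      Summable (fun k => (2 : ℝ) ^ k * ‖T - F k‖) := by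
  have hex : ∀ k : ℕ, ∃ F ∈ rankLE H (2 ^ k), ‖T - F‖ < sv T (2 ^ k) + (1 / 4) ^ k := by
    intro k
    apply exists_of_sv_lt
    have : (0 : ℝ) < (1 / 4) ^ k := by positivity
    linarith
  choose F hF hFT using hex
  refine ⟨F, hF, ?_⟩
  have h1 : Summable (fun k : ℕ => (2 : ℝ) ^ k * sv T (2 ^ k)) := by
    rw [summable_condensed_iff_of_nonneg (fun n => sv_nonneg T n)
      (fun m n _ hmn => sv_antitone T hmn)]
    exact hT
  have h2 : Summable (fun k : ℕ => ((1 : ℝ) / 2) ^ k) :=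
    summable_geometric_of_lt_one (by norm_num) (by norm_num)
  refine Summable.of_nonneg_of_le (fun k => by positivity) (fun k => ?_) (h1.add h2)
  calc (2 : ℝ) ^ k * ‖T - F k‖ ≤ 2 ^ k * (sv T (2 ^ k) + (1 / 4) ^ k) := by
        have := (hFT k).le
        gcongr
    _ = 2 ^ k * sv T (2 ^ k) + (2 * (1 / 4)) ^ k := by rw [mul_pow]; ring
    _ = 2 ^ k * sv T (2 ^ k) + (1 / 2) ^ k := by norm_num

/-- The approximants converge in trace norm. -/
lemma tendsto_trace {T : H →L[ℂ] H} (hT : Summable (sv T)) {F : ℕ → H →L[ℂ] H}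
    (hF : ∀ k, F k ∈ rankLE H (2 ^ k)) (hFs : Summable (fun k => (2 : ℝ) ^ k * ‖T - F k‖)) :
    Tendsto (fun k => ∑' n, sv (T - F k) n) atTop (𝓝 0) := by
  have hb : ∀ k, ∑' n, sv (T - F k) n ≤ 2 * (2 ^ k * ‖T - F k‖) + ∑' n, sv T (n + 2 ^ k) := by
    intro k
    have hs : Summable (sv (T - F k)) := by
      have h1 : T - F k = T + (-1 : ℂ) • F k := by rw [neg_one_smul, sub_eq_add_neg]
      have h2 := summable_sv_add (p := 1) one_pos (summable_pow_one.mpr hT)
        (summable_pow_one.mpr (summable_of_mem (smul_mem_rankLE (-1) (hF k))))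
      rw [h1]
      exact summable_pow_one.mp h2
    have h3 : ∀ m, sv (T - F k) (m + 2 ^ k) ≤ sv T m := by
      intro m
      have h1 : T - F k = T + (-1 : ℂ) • F k := by rw [neg_one_smul, sub_eq_add_neg]
      rw [h1]
      refine (sv_add_le _ _ m (2 ^ k)).trans ?_
      rw [sv_of_mem (smul_mem_rankLE (-1) (hF k)) le_rfl, add_zero]
    rw [← hs.sum_add_tsum_nat_add (2 ^ k + 2 ^ k)]
    apply add_le_add
    · calc ∑ i ∈ Finset.range (2 ^ k + 2 ^ k), sv (T - F k) i
          ≤ ∑ _i ∈ Finset.range (2 ^ k + 2 ^ k), ‖T - F k‖ :=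
            Finset.sum_le_sum (fun i _ => sv_le_norm _ _)
        _ = 2 * (2 ^ k * ‖T - F k‖) := by
            simp
            ring
    · apply Summable.tsum_le_tsum
      · intro n
        rw [← add_assoc]
        exact h3 (n + 2 ^ k)
      · exact (summable_nat_add_iff _).mpr hs
      · exact (summable_nat_add_iff _).mpr hT
  have h1 : Tendsto (fun k : ℕ => 2 * ((2 : ℝ) ^ k * ‖T - F k‖) + ∑' n, sv T (n + 2 ^ k)) atTop
      (𝓝 (2 * 0 + 0)) := by
    apply Tendsto.add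
    · exact hFs.tendsto_atTop_zero.const_mul 2
    · have h2 := tendsto_sum_nat_add (sv T)
      exact h2.comp (tendsto_pow_atTop_atTop_of_one_lt (by norm_num))
  rw [mul_zero, add_zero] at h1
  exact squeeze_zero (fun k => tsum_nonneg (fun n => sv_nonneg _ _)) hb h1

section phi2

variable {Y : Type*} [NormedAddCommGroup Y] [NormedSpace ℂ Y] {B : H → H → Y} {K : ℝ}
  [CompleteSpace H]

/-- Uniform tail bound for the defect. -/
lemma norm_Phi_tail_le (hB : Sesq B K) (hK : 0 ≤ K) {e : ℕ → H} (he : Orthonormal ℂ e)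
    {T : H →L[ℂ] H} {F : ℕ → H →L[ℂ] H}
    (hF : ∀ k, F k ∈ rankLE H (2 ^ k)) (hFs : Summable (fun k => (2 : ℝ) ^ k * ‖T - F k‖))
    (n J : ℕ) :
    ‖Phi B e n (T - F J)‖ ≤ ∑' k, 8 * K * ((2 : ℝ) ^ (k + J) * ‖T - F (k + J)‖
      + (2 : ℝ) ^ (k + J + 1) * ‖T - F (k + J + 1)‖) := by
  set c : ℕ → ℝ := fun k => 8 * K * ((2 : ℝ) ^ k * ‖T - F k‖
      + (2 : ℝ) ^ (k + 1) * ‖T - F (k + 1)‖) with hc
  have hcs : Summable c := by
    apply Summable.mul_left
    exact hFs.add ((summable_nat_add_iff 1).mpr hFs)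
  have hcJ : Summable (fun k => c (k + J)) := (summable_nat_add_iff J).mpr hcs
  have hc0 : ∀ k, 0 ≤ c k := fun k => by positivity
  have hstep : ∀ k, ‖Phi B e n (F (k + 1) - F k)‖ ≤ c k := by
    intro k
    have h5 : F (k + 1) - F k ∈ rankLE H (2 ^ (k + 2)) := by
      have h6 : F (k + 1) + (-1 : ℂ) • F k ∈ rankLE H (2 ^ (k + 1) + 2 ^ k) :=
        add_mem_rankLE (hF (k + 1)) (smul_mem_rankLE _ (hF k))
      have h7 : F (k + 1) + (-1 : ℂ) • F k = F (k + 1) - F k := by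
        rw [neg_one_smul]; abel
      rw [h7] at h6
      refine rankLE_mono ?_ h6
      have h8 : 2 ^ (k + 2) = 2 ^ (k + 1) + 2 ^ k + 2 ^ k := by ring
      have h9 : 0 < 2 ^ k := by positivity
      omega
    refine (norm_Phi_rank_le hB hK he n h5).trans ?_
    have h6 : ‖F (k + 1) - F k‖ ≤ ‖T - F k‖ + ‖T - F (k + 1)‖ := by
      calc ‖F (k + 1) - F k‖ = ‖(T - F k) - (T - F (k + 1))‖ := by congr 1; abel
        _ ≤ _ := norm_sub_le _ _
    calc 2 * K * (((2 ^ (k + 2) : ℕ) : ℝ) * ‖F (k + 1) - F k‖)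
        ≤ 2 * K * (((2 ^ (k + 2) : ℕ) : ℝ) * (‖T - F k‖ + ‖T - F (k + 1)‖)) := by gcongr
      _ = 8 * K * ((2 : ℝ) ^ k * ‖T - F k‖ + 2 ^ k * ‖T - F (k + 1)‖) := by
          push_cast
          ring
      _ ≤ 8 * K * ((2 : ℝ) ^ k * ‖T - F k‖ + 2 ^ (k + 1) * ‖T - F (k + 1)‖) := by
          have h10 : (2 : ℝ) ^ k ≤ 2 ^ (k + 1) := pow_le_pow_right₀ (by norm_num) (Nat.le_succ k)
          have h11 := mul_le_mul_of_nonneg_right h10 (norm_nonneg (T - F (k + 1)))
          gcongr 8 * K * (_ + ?_)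
  have hbd : ∀ L : ℕ, ‖Phi B e n (T - F J)‖ ≤ n * (2 * K * ‖T - F (J + L)‖)
      + ∑' k, c (k + J) := by
    intro L
    have h1 : T - F J = (T - F (J + L)) + ∑ k ∈ Finset.range L, (F (J + k + 1) - F (J + k)) := by
      have h2 := Finset.sum_range_sub (fun k => F (J + k)) L
      simp only [add_zero] at h2
      have h3 : ∑ k ∈ Finset.range L, (F (J + k + 1) - F (J + k))
          = ∑ k ∈ Finset.range L, (F (J + (k + 1)) - F (J + k)) := by
        apply Finset.sum_congr rfl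
        intro k _
        rw [add_assoc]
      rw [h3, h2]
      abel
    rw [h1, Phi_add hB, Phi_sum hB]
    refine (norm_add_le _ _).trans (add_le_add (norm_Phi_le hB hK he n _) ?_)
    calc ‖∑ k ∈ Finset.range L, Phi B e n (F (J + k + 1) - F (J + k))‖
        ≤ ∑ k ∈ Finset.range L, c (k + J) := by
          apply norm_sum_le_of_le
          intro k _
          rw [add_comm k J]
          exact hstep (J + k)
      _ ≤ ∑' k, c (k + J) := hcJ.sum_le_tsum _ (fun k _ => hc0 _)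
  have hlim : Tendsto (fun L : ℕ => n * (2 * K * ‖T - F (J + L)‖) + ∑' k, c (k + J)) atTop
      (𝓝 (n * (2 * K * 0) + ∑' k, c (k + J))) := by
    apply Tendsto.add_const
    apply Tendsto.const_mul
    apply Tendsto.const_mul
    have h1 : Tendsto (fun k => ‖T - F k‖) atTop (𝓝 0) := by
      refine squeeze_zero (fun k => norm_nonneg _) (fun k => ?_) hFs.tendsto_atTop_zero
      have : (1 : ℝ) ≤ 2 ^ k := one_le_pow₀ (by norm_num)
      nlinarith [norm_nonneg (T - F k)]
    have h2 := (tendsto_add_atTop_iff_nat J).mpr h1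
    simpa only [add_comm] using h2
  have := ge_of_tendsto' hlim hbd
  simpa using this

lemma tendsto_Phi (hB : Sesq B K) (hK : 0 ≤ K) (b : HilbertBasis ℕ ℂ H)
    {T : H →L[ℂ] H} (hT : Summable (sv T)) :
    Tendsto (fun n => Phi B b n T) atTop (𝓝 0) := by
  obtain ⟨F, hF, hFs⟩ := exists_dyadic hT
  set c : ℕ → ℝ := fun k => 8 * K * ((2 : ℝ) ^ k * ‖T - F k‖
      + (2 : ℝ) ^ (k + 1) * ‖T - F (k + 1)‖) with hc
  have htail : Tendsto (fun J => ∑' k, c (k + J)) atTop (𝓝 0) := tendsto_sum_nat_add c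
  rw [Metric.tendsto_atTop]
  intro ε hε
  obtain ⟨J, hJ⟩ := ((Metric.tendsto_atTop.mp htail) (ε / 2) (by positivity))
  have hJ' := hJ J le_rfl
  obtain ⟨N, hN⟩ := (Metric.tendsto_atTop.mp (tendsto_Phi_rank hB b (hF J))) (ε / 2) (by positivity)
  refine ⟨N, fun n hn => ?_⟩
  have h1 := hN n hn
  rw [dist_zero_right] at h1 ⊢
  have h2 : T = (T - F J) + F J := by abel
  rw [h2, Phi_add hB]
  have h3 := norm_Phi_tail_le hB hK b.orthonormal hF hFs n J
  rw [Real.dist_0_eq_abs] at hJ'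
  have h4 : ∑' k, c (k + J) < ε / 2 := lt_of_le_of_lt (le_abs_self _) hJ'
  calc ‖Phi B b n (T - F J) + Phi B b n (F J)‖ ≤ ‖Phi B b n (T - F J)‖ + ‖Phi B b n (F J)‖ :=
        norm_add_le _ _
    _ < ε / 2 + ε / 2 := add_lt_add (lt_of_le_of_lt h3 h4) h1
    _ = ε := by ring

end phi2

section trace

lemma tsum_sv_add_le {S T : H →L[ℂ] H} (hS : Summable (sv S)) (hT : Summable (sv T)) :
    ∑' n, sv (S + T) n ≤ 2 * (∑' n, sv S n + ∑' n, sv T n) := by
  have hST : Summable (sv (S + T)) := summable_pow_one.mp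
    (summable_sv_add one_pos (summable_pow_one.mpr hS) (summable_pow_one.mpr hT))
  have he : Summable (fun n => sv (S + T) (2 * n)) :=
    hST.comp_injective (fun a b h => by simpa using h)
  have ho : Summable (fun n => sv (S + T) (2 * n + 1)) :=
    hST.comp_injective (fun a b h => by simpa using h)
  rw [← tsum_even_add_odd he ho, ← hS.tsum_add hT, two_mul]
  apply add_le_add
  · apply he.tsum_le_tsum _ (hS.add hT)
    intro n
    rw [two_mul]
    exact sv_add_le S T n n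
  · apply ho.tsum_le_tsum _ (hS.add hT)
    intro n
    refine (sv_antitone (S + T) (Nat.le_succ (2 * n))).trans ?_
    rw [two_mul]
    exact sv_add_le S T n n

lemma tsum_sv_rank_le {G : H →L[ℂ] H} {r : ℕ} (hG : G ∈ rankLE H r) :
    ∑' n, sv G n ≤ r * ‖G‖ := by
  rw [tsum_eq_sum (s := Finset.range r) (fun n hn => sv_of_mem hG (by simpa using hn))]
  calc ∑ n ∈ Finset.range r, sv G n ≤ ∑ _ ∈ Finset.range r, ‖G‖ :=
        Finset.sum_le_sum (fun i _ => sv_le_norm _ _)
    _ = r * ‖G‖ := by simp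

lemma summable_sv_mul (A : H →L[ℂ] H) {T : H →L[ℂ] H} (hT : Summable (sv T)) :
    Summable (sv (A * T)) :=
  Summable.of_nonneg_of_le (fun n => sv_nonneg _ _) (fun n => sv_mul_le_right A T n)
    (hT.mul_left ‖A‖)

lemma tsum_sv_mul_le (A : H →L[ℂ] H) {T : H →L[ℂ] H} (hT : Summable (sv T)) :
    ∑' n, sv (A * T) n ≤ ‖A‖ * ∑' n, sv T n := by
  rw [← tsum_mul_left]
  exact (summable_sv_mul A hT).tsum_le_tsum (fun n => sv_mul_le_right A T n) (hT.mul_left ‖A‖)

variable [CompleteSpace H]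

/-- The projection onto the span of the first `n` basis vectors, as an operator. -/
def PnOp (e : ℕ → H) (n : ℕ) : H →L[ℂ] H := ∑ i ∈ Finset.range n, ro (e i) (e i)

omit [CompleteSpace H] in
lemma PnOp_apply (e : ℕ → H) (n : ℕ) (v : H) : PnOp e n v = Pn e n v := by
  unfold PnOp Pn
  rw [sum_apply]
  rfl

omit [CompleteSpace H] in
lemma norm_PnOp_le {e : ℕ → H} (he : Orthonormal ℂ e) (n : ℕ) : ‖PnOp e n‖ ≤ 1 := by
  refine ContinuousLinearMap.opNorm_le_bound _ (by norm_num) (fun v => ?_)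
  rw [PnOp_apply, one_mul]
  exact norm_Pn_le he n v

lemma tendsto_trace_Pn (b : HilbertBasis ℕ ℂ H) {T : H →L[ℂ] H} (hT : Summable (sv T)) :
    Tendsto (fun n => ∑' m, sv ((PnOp b n - 1) * T) m) atTop (𝓝 0) := by
  obtain ⟨F, hF, hFs⟩ := exists_dyadic hT
  have h1 := tendsto_trace hT hF hFs
  have hnorm : ∀ n, ‖PnOp b n - 1‖ ≤ 2 := by
    intro n
    refine (norm_sub_le _ _).trans ?_
    have h2 := norm_PnOp_le b.orthonormal n
    have h3 : ‖(1 : H →L[ℂ] H)‖ ≤ 1 := ContinuousLinearMap.norm_id_le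
    linarith
  have hfin : ∀ J, Tendsto (fun n => ∑' m, sv ((PnOp b n - 1) * F J) m) atTop (𝓝 0) := by
    intro J
    obtain ⟨m, hm, u, w, hu, hw, hrep⟩ := rep_ro (hF J)
    have h2 : ∀ n, ∑' k, sv ((PnOp b n - 1) * F J) k
        ≤ (2 ^ J : ℕ) * ∑ i, ‖Pn b n (u i) - u i‖ * ‖w i‖ := by
      intro n
      refine (tsum_sv_rank_le (mul_mem_rankLE_right _ (hF J))).trans ?_
      gcongr
      have h3 : (PnOp b n - 1) * F J = ∑ i, ro (Pn b n (u i) - u i) (w i) := by
        conv_lhs => rw [hrep]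
        rw [Finset.mul_sum]
        apply Finset.sum_congr rfl
        intro i _
        ext v
        change (PnOp b n - 1) (⟪w i, v⟫_ℂ • u i) = ⟪w i, v⟫_ℂ • (Pn b n (u i) - u i)
        rw [sub_apply, PnOp_apply]
        change Pn b n (⟪w i, v⟫_ℂ • u i) - ⟪w i, v⟫_ℂ • u i = _
        rw [← PnOp_apply, map_smul, PnOp_apply, smul_sub]
      rw [h3]
      exact norm_sum_le_of_le _ (fun i _ => norm_ro_le _ _)
    have h4 : Tendsto (fun n => (2 ^ J : ℕ) * ∑ i, ‖Pn b n (u i) - u i‖ * ‖w i‖) atTop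
        (𝓝 ((2 ^ J : ℕ) * ∑ i, ‖u i - u i‖ * ‖w i‖)) := by
      apply Tendsto.const_mul
      apply tendsto_finsetSum
      intro i _
      apply Tendsto.mul_const
      exact ((tendsto_Pn b (u i)).sub_const _).norm
    simp only [sub_self, norm_zero, zero_mul, Finset.sum_const_zero, mul_zero] at h4
    exact squeeze_zero (fun n => tsum_nonneg (fun k => sv_nonneg _ _)) h2 h4
  rw [Metric.tendsto_atTop]
  intro ε hε
  obtain ⟨J, hJ⟩ := (Metric.tendsto_atTop.mp h1) (ε / 8) (by positivity)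
  have hJ' := hJ J le_rfl
  rw [Real.dist_0_eq_abs] at hJ'
  have hJ2 : ∑' n, sv (T - F J) n < ε / 8 := lt_of_le_of_lt (le_abs_self _) hJ'
  obtain ⟨N, hN⟩ := (Metric.tendsto_atTop.mp (hfin J)) (ε / 4) (by positivity)
  refine ⟨N, fun n hn => ?_⟩
  have h5 := hN n hn
  rw [Real.dist_0_eq_abs] at h5 ⊢
  have h6 : ∑' m, sv ((PnOp b n - 1) * F J) m < ε / 4 := lt_of_le_of_lt (le_abs_self _) h5
  rw [abs_of_nonneg (tsum_nonneg (fun k => sv_nonneg _ _))]
  have hTF : Summable (sv (T - F J)) := by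
    have h7 : T - F J = T + (-1 : ℂ) • F J := by rw [neg_one_smul, sub_eq_add_neg]
    rw [h7]
    exact summable_pow_one.mp (summable_sv_add (p := 1) one_pos (summable_pow_one.mpr hT)
        (summable_pow_one.mpr (summable_of_mem (smul_mem_rankLE (-1) (hF J)))))
  have h8 : (PnOp b n - 1) * T = (PnOp b n - 1) * (T - F J) + (PnOp b n - 1) * F J := by
    rw [← mul_add]
    congr 1
    abel
  rw [h8]
  have h9 := tsum_sv_mul_le (PnOp b n - 1) hTF
  have h10 : ‖PnOp b n - 1‖ * ∑' m, sv (T - F J) m ≤ 2 * ∑' m, sv (T - F J) m := by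
    have := hnorm n
    have h11 : 0 ≤ ∑' m, sv (T - F J) m := tsum_nonneg (fun k => sv_nonneg _ _)
    gcongr
  have h12 := tsum_sv_add_le (summable_sv_mul (PnOp b n - 1) hTF)
    (summable_of_mem (mul_mem_rankLE_right (PnOp b n - 1) (hF J)))
  linarith

end trace

end Pool.Agent.H79.Schatten
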