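import Mathlib
import Pool.Agent.H79.SchattenPos2
import Pool.Agent.H79.SchattenNeg

set_option autoImplicit false

open Filter Topology
open scoped InnerProductSpace ENNReal

noncomputable section

namespace Pool.Agent.H79.Schatten

open Pool.Agent.H79.SemiAm

section dual

variable {A : Type*} [NonUnitalRing A] [Module ℂ A] {ν : A → ℝ}
  {X : Type*} [NormedAddCommGroup X] [NormedSpace ℂ X] (M : BanachBimodule A ν X)

lemma dualL_add_left (a b : A) (f : X →L[ℂ] ℂ) : M.dualL (a + b) f = M.dualL a f + M.dualL b f := by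
  unfold BanachBimodule.dualL
  rw [map_add, ContinuousLinearMap.comp_add]

lemma dualL_smul_left (c : ℂ) (a : A) (f : X →L[ℂ] ℂ) : M.dualL (c • a) f = c • M.dualL a f := by
  unfold BanachBimodule.dualL
  rw [map_smul, ContinuousLinearMap.comp_smul]

lemma dualL_add_right (a : A) (f g : X →L[ℂ] ℂ) : M.dualL a (f + g) = M.dualL a f + M.dualL a g := by
  unfold BanachBimodule.dualL
  rw [ContinuousLinearMap.add_comp]

lemma dualL_smul_right (c : ℂ) (a : A) (f : X →L[ℂ] ℂ) : M.dualL a (c • f) = c • M.dualL a f := by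
  unfold BanachBimodule.dualL
  rw [ContinuousLinearMap.smul_comp]

lemma dualL_sub_right (a : A) (f g : X →L[ℂ] ℂ) : M.dualL a (f - g) = M.dualL a f - M.dualL a g := by
  unfold BanachBimodule.dualL
  rw [ContinuousLinearMap.sub_comp]

lemma dualR_add (a : A) (f g : X →L[ℂ] ℂ) : M.dualR (f + g) a = M.dualR f a + M.dualR g a := by
  unfold BanachBimodule.dualR
  rw [ContinuousLinearMap.add_comp]

lemma dualR_sub (a : A) (f g : X →L[ℂ] ℂ) : M.dualR (f - g) a = M.dualR f a - M.dualR g a := by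
  unfold BanachBimodule.dualR
  rw [ContinuousLinearMap.sub_comp]

lemma dualL_sum_left {ι : Type*} (s : Finset ι) (a : ι → A) (f : X →L[ℂ] ℂ) :
    M.dualL (∑ i ∈ s, a i) f = ∑ i ∈ s, M.dualL (a i) f := by
  classical
  induction s using Finset.induction_on with
  | empty => simp [BanachBimodule.dualL]
  | insert j s hj ih => rw [Finset.sum_insert hj, Finset.sum_insert hj, dualL_add_left, ih]

lemma dualL_sum_right {ι : Type*} (s : Finset ι) (a : A) (f : ι → X →L[ℂ] ℂ) :
    M.dualL a (∑ i ∈ s, f i) = ∑ i ∈ s, M.dualL a (f i) := by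
  classical
  induction s using Finset.induction_on with
  | empty => simp [BanachBimodule.dualL]
  | insert j s hj ih => rw [Finset.sum_insert hj, Finset.sum_insert hj, dualL_add_right, ih]

lemma dualR_sum {ι : Type*} (s : Finset ι) (a : A) (f : ι → X →L[ℂ] ℂ) :
    M.dualR (∑ i ∈ s, f i) a = ∑ i ∈ s, M.dualR (f i) a := by
  classical
  induction s using Finset.induction_on with
  | empty => simp [BanachBimodule.dualR]
  | insert j s hj ih => rw [Finset.sum_insert hj, Finset.sum_insert hj, dualR_add, ih]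

lemma dualL_mul (a b : A) (f : X →L[ℂ] ℂ) : M.dualL a (M.dualL b f) = M.dualL (a * b) f := by
  apply ContinuousLinearMap.ext
  intro x
  change f (M.r b (M.r a x)) = f (M.r (a * b) x)
  rw [M.r_mul]

lemma dualR_dualL (a b : A) (f : X →L[ℂ] ℂ) :
    M.dualR (M.dualL b f) a = M.dualL b (M.dualR f a) := by
  apply ContinuousLinearMap.ext
  intro x
  change f (M.r b (M.l a x)) = f (M.l a (M.r b x))
  rw [M.l_r]

end dual

variable {H : Type} [NormedAddCommGroup H] [InnerProductSpace ℂ H] [CompleteSpace H]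

/-- A finite rank operator as an element of the trace class. -/
def roA (hp : (1 : ℝ) ≤ 1) (x y : H) : schatten H 1 hp :=
  ⟨ro x y, isCompact_of_rankLE (ro_mem x y), summable_pow_one.mpr (summable_of_mem (ro_mem x y))⟩

/-- The trace class is approximately semi-amenable. -/
theorem asa_one (b : HilbertBasis ℕ ℂ H) (hp : (1 : ℝ) ≤ 1) :
    ApproxSemiAmenable (schatten H 1 hp) (fun a => schattenNorm 1 (a : H →L[ℂ] H)) := by
  intro X _ _ _ M D hD
  obtain ⟨Cr, hCr⟩ := M.r_bound
  obtain ⟨CD, hCD⟩ := hD.bound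
  have hν0 : ∀ a : schatten H 1 hp, 0 ≤ schattenNorm 1 (a : H →L[ℂ] H) :=
    fun a => schattenNorm_nonneg _ _
  have hDb : ∀ a : schatten H 1 hp, ‖D a‖ ≤ |CD| * schattenNorm 1 (a : H →L[ℂ] H) := by
    intro a
    refine (hCD a).trans ?_
    have := hν0 a
    gcongr
    exact le_abs_self _
  have hLb : ∀ (a : schatten H 1 hp) (f : X →L[ℂ] ℂ),
      ‖M.dualL a f‖ ≤ ‖f‖ * (|Cr| * schattenNorm 1 (a : H →L[ℂ] H)) := by
    intro a f
    have h0 := hν0 a
    refine ContinuousLinearMap.opNorm_le_bound _ (by positivity) (fun x => ?_)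
    change ‖f (M.r a x)‖ ≤ _
    refine (f.le_opNorm _).trans ?_
    rw [mul_assoc]
    gcongr
    refine (hCr a x).trans ?_
    gcongr
    exact le_abs_self _
  have hb0 : ‖b 0‖ = 1 := b.orthonormal.1 0
  -- additivity of rank one operators
  have r1 : ∀ x x' y : H, roA hp (x + x') y = roA hp x y + roA hp x' y := by
    intro x x' y
    apply Subtype.ext
    ext v
    change ⟪y, v⟫_ℂ • (x + x') = ⟪y, v⟫_ℂ • x + ⟪y, v⟫_ℂ • x'
    rw [smul_add]
  have r2 : ∀ (c : ℂ) (x y : H), roA hp (c • x) y = c • roA hp x y := by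
    intro c x y
    apply Subtype.ext
    ext v
    change ⟪y, v⟫_ℂ • (c • x) = c • (⟪y, v⟫_ℂ • x)
    rw [smul_comm]
  have r3 : ∀ x y y' : H, roA hp x (y + y') = roA hp x y + roA hp x y' := by
    intro x y y'
    apply Subtype.ext
    ext v
    change ⟪y + y', v⟫_ℂ • x = ⟪y, v⟫_ℂ • x + ⟪y', v⟫_ℂ • x
    rw [inner_add_left, add_smul]
  have r4 : ∀ (c : ℂ) (x y : H), roA hp x (c • y) = (starRingEnd ℂ c) • roA hp x y := by
    intro c x y
    apply Subtype.ext
    ext v
    change ⟪c • y, v⟫_ℂ • x = (starRingEnd ℂ c) • (⟪y, v⟫_ℂ • x)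
    rw [inner_smul_left, mul_smul]
  let B : H → H → (X →L[ℂ] ℂ) := fun x y => M.dualL (roA hp x (b 0)) (D (roA hp (b 0) y))
  have hB : Sesq B (|CD| * |Cr|) := by
    constructor
    · intro x x' y
      change M.dualL (roA hp (x + x') (b 0)) _ = _
      rw [r1, dualL_add_left]
    · intro c x y
      change M.dualL (roA hp (c • x) (b 0)) _ = _
      rw [r2, dualL_smul_left]
    · intro x y y'
      change M.dualL _ (D (roA hp (b 0) (y + y'))) = _
      rw [r3, map_add, dualL_add_right]
    · intro c x y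
      change M.dualL _ (D (roA hp (b 0) (c • y))) = _
      rw [r4, map_smul, dualL_smul_right]
    · intro x y
      refine (hLb _ _).trans ?_
      have h1 : schattenNorm 1 ((roA hp x (b 0) : schatten H 1 hp) : H →L[ℂ] H) ≤ ‖x‖ := by
        have := schattenNorm_ro_le x (b 0)
        rwa [hb0, mul_one] at this
      have h2 : ‖D (roA hp (b 0) y)‖ ≤ |CD| * ‖y‖ := by
        refine (hDb _).trans ?_
        have := schattenNorm_ro_le (b 0) y
        rw [hb0, one_mul] at this
        gcongr
        exact this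
      have h3 := hν0 (roA hp x (b 0))
      calc ‖D (roA hp (b 0) y)‖ * (|Cr| * schattenNorm 1 ((roA hp x (b 0) : schatten H 1 hp) : H →L[ℂ] H))
          ≤ (|CD| * ‖y‖) * (|Cr| * ‖x‖) := by gcongr
        _ = |CD| * |Cr| * (‖x‖ * ‖y‖) := by ring
  -- product formulas
  have m1 : ∀ (a : schatten H 1 hp) (x y : H), a * roA hp x y = roA hp ((a : H →L[ℂ] H) x) y := by
    intro a x y
    apply Subtype.ext
    ext v
    change (a : H →L[ℂ] H) (⟪y, v⟫_ℂ • x) = ⟪y, v⟫_ℂ • (a : H →L[ℂ] H) x
    rw [map_smul]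
  have m2 : ∀ (a : schatten H 1 hp) (x y : H),
      roA hp x y * a = roA hp x (ContinuousLinearMap.adjoint (a : H →L[ℂ] H) y) := by
    intro a x y
    apply Subtype.ext
    ext v
    change ⟪y, (a : H →L[ℂ] H) v⟫_ℂ • x
      = ⟪ContinuousLinearMap.adjoint (a : H →L[ℂ] H) y, v⟫_ℂ • x
    rw [ContinuousLinearMap.adjoint_inner_left]
  have m3 : ∀ i : ℕ, roA hp (b i) (b 0) * roA hp (b 0) (b i) = roA hp (b i) (b i) := by
    intro i
    rw [m1]
    congr 1
    change ⟪b 0, b 0⟫_ℂ • b i = b i
    rw [inner_self_eq_norm_sq_to_K, hb0]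
    simp
  let PA : ℕ → schatten H 1 hp := fun n => ∑ i ∈ Finset.range n, roA hp (b i) (b i)
  let ξ : ℕ → (X →L[ℂ] ℂ) := fun n => ∑ i ∈ Finset.range n, B (b i) (b i)
  refine ⟨ℕ, inferInstance, inferInstance, inferInstance, ξ, fun n => ξ n - D (PA n), ?_⟩
  intro a
  have key : ∀ n, M.dualL a (ξ n) - M.dualR (ξ n - D (PA n)) a
      = Phi B b n (a : H →L[ℂ] H) + D (PA n * a) := by
    intro n
    have e1 : M.dualL a (ξ n) = ∑ i ∈ Finset.range n, B ((a : H →L[ℂ] H) (b i)) (b i) := by
      change M.dualL a (∑ i ∈ Finset.range n, B (b i) (b i)) = _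
      rw [dualL_sum_right]
      apply Finset.sum_congr rfl
      intro i _
      change M.dualL a (M.dualL (roA hp (b i) (b 0)) _) = _
      rw [dualL_mul, m1]
    have e2 : ∀ c : schatten H 1 hp, M.dualR (D c) a = D (c * a) - M.dualL c (D a) := by
      intro c
      rw [hD.leibniz c a]
      abel
    have e3 : M.dualR (ξ n) a
        = ∑ i ∈ Finset.range n, B (b i) (ContinuousLinearMap.adjoint (a : H →L[ℂ] H) (b i))
          - M.dualL (PA n) (D a) := by
      change M.dualR (∑ i ∈ Finset.range n, B (b i) (b i)) a = _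
      rw [dualR_sum]
      change _ = _ - M.dualL (∑ i ∈ Finset.range n, roA hp (b i) (b i)) (D a)
      rw [dualL_sum_left, ← Finset.sum_sub_distrib]
      apply Finset.sum_congr rfl
      intro i _
      change M.dualR (M.dualL (roA hp (b i) (b 0)) (D (roA hp (b 0) (b i)))) a = _
      rw [dualR_dualL, e2, dualL_sub_right, dualL_mul, m2, m3]
    rw [dualR_sub, e1, e3, e2]
    unfold Phi
    rw [Finset.sum_sub_distrib]
    abel
  simp only [key]
  have ha : Summable (sv (a : H →L[ℂ] H)) := summable_pow_one.mp a.2.2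
  have t1 := tendsto_Phi hB (by positivity) b ha
  have t2 : Tendsto (fun n => D (PA n * a)) atTop (𝓝 (D a)) := by
    rw [tendsto_iff_norm_sub_tendsto_zero]
    have t3 := (tendsto_trace_Pn b ha).const_mul |CD|
    rw [mul_zero] at t3
    refine squeeze_zero (fun n => norm_nonneg _) (fun n => ?_) t3
    rw [← map_sub]
    refine (hDb _).trans ?_
    rw [schattenNorm_one]
    have e4 : ((PA n * a - a : schatten H 1 hp) : H →L[ℂ] H) = (PnOp b n - 1) * (a : H →L[ℂ] H) := by
      rw [sub_mul, one_mul]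
      have e5 : ((PA n : schatten H 1 hp) : H →L[ℂ] H) = PnOp b n := by
        change ((∑ i ∈ Finset.range n, roA hp (b i) (b i) : schatten H 1 hp) : H →L[ℂ] H) = _
        rw [AddSubmonoidClass.coe_finsetSum]
        rfl
      rw [← e5]
      rfl
    rw [e4]
  have t4 := t1.add t2
  rwa [zero_add] at t4

end Pool.Agent.H79.Schatten
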